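import Pool.Agent.V11196.RR.Forward

/-! Boundedness in the first alternative, and decay of the transfer map in the second. -/

namespace V11196.RR

noncomputable section

variable {B x : ℕ → ℝ} {k : ℕ}

lemma bdd_of_tail {x : ℕ → ℝ} {N : ℕ} {K : ℝ} (h : ∀ n, N ≤ n → x n ≤ K) :
    BddAbove (Set.range x) := by
  have h1 : BddAbove (x '' {n | n < N}) := ((Set.finite_lt_nat N).image x).bddAbove
  have h2 : BddAbove (Set.Iic K) := bddAbove_Iic
  refine (h1.union h2).mono ?_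
  rintro _ ⟨n, rfl⟩
  rcases lt_or_ge n N with hn | hn
  · exact Or.inl ⟨n, hn, rfl⟩
  · exact Or.inr (h n hn)

lemma bddseq {a : ℕ → ℝ} (hk : 0 < k) {C D : ℝ} (hC : 0 ≤ C) (i0 : ℕ)
    (h1 : ∀ i, a (i + 1) ≤ a i + C) (h2 : ∀ n, a (i0 + k * n) ≤ D) :
    ∃ K, ∀ i, a i ≤ K := by
  have key : ∀ i r, a (i + r) ≤ a i + r * C := by
    intro i r
    induction r with
    | zero => simp
    | succ r ih =>
      have := h1 (i + r)
      rw [← add_assoc]
      push_cast
      linarith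
  refine ⟨max (a 0 + i0 * C) (D + k * C), fun i => ?_⟩
  rcases lt_or_ge i i0 with hi | hi
  · apply le_max_of_le_left
    have h3 := key 0 i
    rw [zero_add] at h3
    have h4 : (i : ℝ) ≤ i0 := by exact_mod_cast hi.le
    nlinarith
  · apply le_max_of_le_right
    have h3 : i = i0 + k * ((i - i0) / k) + (i - i0) % k := by
      have := Nat.div_add_mod (i - i0) k
      omega
    rw [h3]
    have h4 := key (i0 + k * ((i - i0) / k)) ((i - i0) % k)
    have h5 := h2 ((i - i0) / k)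
    have h6 : (((i - i0) % k : ℕ) : ℝ) ≤ k := by exact_mod_cast (Nat.mod_lt _ hk).le
    nlinarith

theorem bdd_I (hB : ∀ n, 0 ≤ B n) (hk : 0 < k) (hper : ∀ n, B (n + k) = B n) {β : ℝ}
    (hβ : ∀ n, B n ≤ β) (hI : CondI B) (h : IsSol B x) : BddAbove (Set.range x) := by
  obtain ⟨m, hz, ⟨i1, h1⟩, ⟨i3, h3⟩⟩ := hI
  have hβ0 : 0 ≤ β := (hB 0).trans (hβ 0)
  have hstep : ∀ i, x (m + 2 * i + 2) = 1 / x (m + 2 * i) := by
    intro i
    rw [h.step, hz, zero_mul, zero_add]
  set u := x m with hu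
  have hu0 : 0 < u := h.pos hB m
  have hu4 : ∀ i, x (m + 4 * i) = u ∧ x (m + 4 * i + 2) = 1 / u := by
    intro i
    induction i with
    | zero =>
      refine ⟨rfl, ?_⟩
      have := hstep 0
      simpa using this
    | succ i ih =>
      have e1 := hstep (2 * i + 1)
      have e2 := hstep (2 * i + 2)
      have e3 : x (m + 4 * (i + 1)) = u := by
        rw [show m + 4 * (i + 1) = m + 2 * (2 * i + 1) + 2 by ring, e1,
          show m + 2 * (2 * i + 1) = m + 4 * i + 2 by ring, ih.2, one_div_one_div]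
      refine ⟨e3, ?_⟩
      rw [show m + 4 * (i + 1) + 2 = m + 2 * (2 * i + 2) + 2 by ring, e2,
        show m + 2 * (2 * i + 2) = m + 4 * (i + 1) by ring, e3]
  have hv : ∀ i, x (m + 4 * i + 3) = 1 / (B (m + 1 + 4 * i) * (1 / u) + x (m + 4 * i + 1)) := by
    intro i
    have := h.step (m + 4 * i + 1)
    rw [show m + 4 * i + 1 + 2 = m + 4 * i + 3 by ring,
      show m + 4 * i + 1 + 1 = m + 4 * i + 2 by ring, (hu4 i).2] at this
    rw [this, show m + 1 + 4 * i = m + 4 * i + 1 by ring]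
  have hw : ∀ i, x (m + 4 * (i + 1) + 1) = 1 / (B (m + 3 + 4 * i) * u + x (m + 4 * i + 3)) := by
    intro i
    have := h.step (m + 4 * i + 3)
    rw [show m + 4 * i + 3 + 2 = m + 4 * (i + 1) + 1 by ring,
      show m + 4 * i + 3 + 1 = m + 4 * (i + 1) by ring, (hu4 (i + 1)).1] at this
    rw [this, show m + 3 + 4 * i = m + 4 * i + 3 by ring]
  -- bound for `w`
  obtain ⟨K1, hK1⟩ : ∃ K, ∀ i, x (m + 4 * i + 1) ≤ K := by
    apply bddseq (a := fun i => x (m + 4 * i + 1)) (C := β * (1 / u))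
      (D := 1 / (B (m + 3 + 4 * i3) * u)) hk (by positivity) (i3 + 1)
    · intro i
      have p1 := h.pos hB (m + 4 * i + 1)
      have p3 := h.pos hB (m + 4 * i + 3)
      have b3 := hB (m + 3 + 4 * i)
      rw [hw]
      calc 1 / (B (m + 3 + 4 * i) * u + x (m + 4 * i + 3)) ≤ 1 / x (m + 4 * i + 3) := by
            apply one_div_le_one_div_of_le p3
            have : 0 ≤ B (m + 3 + 4 * i) * u := by positivity
            linarith
        _ = B (m + 1 + 4 * i) * (1 / u) + x (m + 4 * i + 1) := by rw [hv, one_div_one_div]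
        _ ≤ x (m + 4 * i + 1) + β * (1 / u) := by
            have := mul_le_mul_of_nonneg_right (hβ (m + 1 + 4 * i)) (one_div_pos.mpr hu0).le
            linarith
    · intro n
      have e : i3 + 1 + k * n = i3 + k * n + 1 := by ring
      simp only [e]
      rw [hw]
      have e1 : B (m + 3 + 4 * (i3 + k * n)) = B (m + 3 + 4 * i3) := by
        rw [show m + 3 + 4 * (i3 + k * n) = m + 3 + 4 * i3 + k * (4 * n) by ring]
        exact per_mul hper _ _
      rw [e1]
      apply one_div_le_one_div_of_le (by positivity)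
      linarith [h.pos hB (m + 4 * (i3 + k * n) + 3)]
  obtain ⟨K3, hK3⟩ : ∃ K, ∀ i, x (m + 4 * i + 3) ≤ K := by
    apply bddseq (a := fun i => x (m + 4 * i + 3)) (C := β * u)
      (D := 1 / (B (m + 1 + 4 * i1) * (1 / u))) hk (by positivity) i1
    · intro i
      have p1 := h.pos hB (m + 4 * (i + 1) + 1)
      have p3 := h.pos hB (m + 4 * i + 3)
      have b3 := hB (m + 1 + 4 * (i + 1))
      rw [hv (i + 1)]
      calc 1 / (B (m + 1 + 4 * (i + 1)) * (1 / u) + x (m + 4 * (i + 1) + 1))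
            ≤ 1 / x (m + 4 * (i + 1) + 1) := by
            apply one_div_le_one_div_of_le p1
            have : 0 ≤ B (m + 1 + 4 * (i + 1)) * (1 / u) := by positivity
            linarith
        _ = B (m + 3 + 4 * i) * u + x (m + 4 * i + 3) := by rw [hw, one_div_one_div]
        _ ≤ x (m + 4 * i + 3) + β * u := by
            have := mul_le_mul_of_nonneg_right (hβ (m + 3 + 4 * i)) hu0.le
            linarith
    · intro n
      rw [hv]
      have e1 : B (m + 1 + 4 * (i1 + k * n)) = B (m + 1 + 4 * i1) := by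
        rw [show m + 1 + 4 * (i1 + k * n) = m + 1 + 4 * i1 + k * (4 * n) by ring]
        exact per_mul hper _ _
      rw [e1]
      apply one_div_le_one_div_of_le (by positivity)
      linarith [h.pos hB (m + 4 * (i1 + k * n) + 1)]
  apply bdd_of_tail (N := m) (K := max (max u (1 / u)) (max K1 K3))
  intro n hn
  obtain ⟨q, r, hr, hqr⟩ : ∃ q r, r < 4 ∧ n = m + 4 * q + r :=
    ⟨(n - m) / 4, (n - m) % 4, Nat.mod_lt _ (by norm_num), by omega⟩
  subst hqr
  interval_cases r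
  · exact le_max_of_le_left (le_max_of_le_left (hu4 q).1.le)
  · exact le_max_of_le_right (le_max_of_le_left (hK1 q))
  · exact le_max_of_le_left (le_max_of_le_right (hu4 q).2.le)
  · exact le_max_of_le_right (le_max_of_le_right (hK3 q))

/-! decay in the second alternative -/

lemma exists_A (hpos : ∀ m, ∃ i, 0 < B (m + 4 * i)) (s : ℕ × ℝ × ℝ) :
    ∃ l, 0 < B ((J B)^[l] s).1 := by
  classical
  have h1 := hpos s.1
  set l := Nat.find h1 with hl
  have hspec := Nat.find_spec h1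
  have hmin : ∀ l' < l, ¬ 0 < B (s.1 + 4 * l') := fun l' h => Nat.find_min h1 h
  have key : ∀ l' ≤ l, ((J B)^[l'] s).1 = s.1 + 4 * l' := by
    intro l' hl'
    induction l' with
    | zero => rfl
    | succ l' ih =>
      have h2 := ih (by omega)
      rw [Function.iterate_succ_apply', J_R (by rw [h2]; exact hmin l' (by omega))]
      change ((J B)^[l'] s).1 + 4 = _
      rw [h2]
      ring
  exact ⟨l, by rw [key l le_rfl]; exact hspec⟩

lemma decay_seq {a : ℕ → ℝ} {j0 : ℕ} {θ : ℝ} (hj0 : 0 < j0) (hθ0 : 0 ≤ θ) (hθ1 : θ < 1)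
    (ha : ∀ n, 0 < n → a (n + j0) = θ * a n) {δ : ℝ} (hδ : 0 < δ) :
    ∃ N, ∀ n, N ≤ n → a n < δ := by
  have h1 : ∀ q n, 0 < n → a (n + j0 * q) = θ ^ q * a n := by
    intro q n hn
    induction q with
    | zero => simp
    | succ q ih =>
      rw [mul_add, mul_one, ← add_assoc, ha _ (by omega), ih, pow_succ]
      ring
  obtain ⟨C, hC⟩ : ∃ C : ℝ, ∀ r < j0, a (1 + r) ≤ C := by
    have hfin : ((fun r => a (1 + r)) '' {r | r < j0}).Finite := (Set.finite_lt_nat j0).image _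
    obtain ⟨C, hC⟩ := hfin.bddAbove
    exact ⟨C, fun r hr => hC ⟨r, hr, rfl⟩⟩
  have hC' : ∀ r < j0, a (1 + r) ≤ max C 0 := fun r hr => (hC r hr).trans (le_max_left _ _)
  have hlim : Filter.Tendsto (fun q : ℕ => θ ^ q * max C 0) Filter.atTop (nhds (0 * max C 0)) :=
    (tendsto_pow_atTop_nhds_zero_of_lt_one hθ0 hθ1).mul_const _
  rw [zero_mul] at hlim
  obtain ⟨Q, hQ⟩ := Filter.eventually_atTop.mp (hlim.eventually (gt_mem_nhds hδ))
  refine ⟨1 + j0 * Q, fun n hn => ?_⟩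
  have h2 : n = 1 + (n - 1) % j0 + j0 * ((n - 1) / j0) := by
    have := Nat.div_add_mod (n - 1) j0
    omega
  have h3 : Q ≤ (n - 1) / j0 := by
    rw [Nat.le_div_iff_mul_le hj0, mul_comm]
    omega
  rw [h2, h1 _ _ (by omega)]
  exact (mul_le_mul_of_nonneg_left (hC' _ (Nat.mod_lt _ hj0)) (pow_nonneg hθ0 _)).trans_lt
    (hQ _ h3)

lemma decay_one (hB : ∀ n, 0 ≤ B n) (hk : 0 < k) (hper : ∀ n, B (n + k) = B n)
    (hII : CondII B k) (t : ℕ) {δ : ℝ} (hδ : 0 < δ) :
    ∃ N, ∀ n, N ≤ n → ((J B)^[n] (t, 1, 1)).2.2 < δ := by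
  obtain ⟨hpos, hcyc⟩ := hII
  have hp1 : ∀ t : ℕ, Pos (t, (1 : ℝ), (1 : ℝ)) := fun t => ⟨one_pos, one_pos⟩
  -- infinitely many times with positive coefficient
  have hinf : {i | 0 < B ((J B)^[i] (t, 1, 1)).1}.Infinite := by
    rw [Set.infinite_iff_exists_gt]
    intro i
    obtain ⟨l, hl⟩ := exists_A hpos ((J B)^[i + 1] (t, 1, 1))
    refine ⟨l + (i + 1), ?_, by omega⟩
    change 0 < B ((J B)^[l + (i + 1)] (t, 1, 1)).1
    rw [Function.iterate_add_apply]
    exact hl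
  obtain ⟨i, hi, j, hj, hij, hmod⟩ := hinf.exists_lt_map_eq_of_mapsTo
    (f := fun i => ((J B)^[i] (t, 1, 1)).1 % k) (t := {r | r < k})
    (fun i _ => Nat.mod_lt _ hk) (Set.finite_lt_nat k)
  set s := ((J B)^[i] (t, 1, 1)).1 with hs
  set L := ((J B)^[i] (t, 1, 1)).2.2 with hL
  have hLpos : 0 < L := (it_pos hB (hp1 t) i).2
  have hsB : 0 < B s := hi
  set j0 := j - i with hj0
  have hj0pos : 0 < j0 := by omega
  have htj : ((J B)^[j0] (s, 1, 1)).1 = ((J B)^[j] (t, 1, 1)).1 := by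
    have : j = j0 + i := by omega
    rw [this, Function.iterate_add_apply]
    exact it_time (s := (s, 1, 1)) (s' := (J B)^[i] (t, 1, 1)) rfl j0
  have hcong : ((J B)^[j0] (s, 1, 1)).1 ≡ s [MOD k] := by
    rw [htj]
    exact hmod.symm
  set θ := ((J B)^[j0] (s, 1, 1)).2.2 with hθ
  have hθ1 : θ < 1 := hcyc s j0 hsB hj0pos hcong
  have hθ0 : 0 < θ := (it_pos hB (hp1 s) j0).2
  have hs' : 0 < B ((J B)^[j0] (s, 1, 1)).1 := by rw [htj]; exact hj
  have hrec : ∀ n, 0 < n → ((J B)^[n + j0] (s, 1, 1)).2.2 = θ * ((J B)^[n] (s, 1, 1)).2.2 := by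
    intro n hn
    rw [Function.iterate_add_apply]
    have e : (J B)^[j0] (s, 1, 1) =
        (((J B)^[j0] (s, 1, 1)).1, ((J B)^[j0] (s, 1, 1)).2.1, θ) := rfl
    rw [e, it_A hB hs' hθ0 hn]
    change θ * ((J B)^[n] (((J B)^[j0] (s, 1, 1)).1, 1, 1)).2.2 = _
    rw [it_modEq hper hcong]
  obtain ⟨N, hN⟩ := decay_seq (a := fun n => ((J B)^[n] (s, 1, 1)).2.2) hj0pos hθ0.le hθ1 hrec
    (div_pos hδ hLpos)
  refine ⟨N + i + 1, fun n hn => ?_⟩
  obtain ⟨n', rfl⟩ : ∃ n', n = n' + i := ⟨n - i, by omega⟩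
  rw [Function.iterate_add_apply]
  have e : (J B)^[i] (t, 1, 1) = (s, ((J B)^[i] (t, 1, 1)).2.1, L) := rfl
  rw [e, it_A hB hsB hLpos (by omega)]
  change L * ((J B)^[n'] (s, 1, 1)).2.2 < δ
  have := hN n' (by omega)
  rw [lt_div_iff₀ hLpos] at this
  linarith

theorem decay (hB : ∀ n, 0 ≤ B n) (hk : 0 < k) (hper : ∀ n, B (n + k) = B n)
    (hII : CondII B k) {δ : ℝ} (hδ : 0 < δ) :
    ∃ N, ∀ t, ((J B)^[N] (t, 1, 1)).2.2 < δ := by
  choose N hN using fun t => decay_one hB hk hper hII t hδ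
  refine ⟨(Finset.range k).sup N, fun t => ?_⟩
  have h1 : t % k ≡ t [MOD k] := Nat.mod_modEq t k
  rw [← it_modEq hper h1]
  apply hN
  exact Finset.le_sup (Finset.mem_range.mpr (Nat.mod_lt _ hk))

end

end V11196.RR
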