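import Pool.Agent.V11196.RR.Bdd1

/-! Backward analysis: boundedness in the second alternative. -/

namespace V11196.RR

noncomputable section

variable {B x : ℕ → ℝ} {k : ℕ}

lemma per_bdd {f : ℕ → ℝ} (hk : 0 < k) (hf : ∀ n, f (n + k) = f n) : ∃ C, ∀ n, f n ≤ C := by
  have hfin : (f '' {r | r < k}).Finite := (Set.finite_lt_nat k).image _
  obtain ⟨C, hC⟩ := hfin.bddAbove
  refine ⟨C, fun n => ?_⟩
  have h1 : f n = f (n % k) := by
    conv_lhs => rw [← Nat.mod_add_div n k]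
    exact per_mul hf _ _
  rw [h1]
  exact hC ⟨n % k, Nat.mod_lt _ hk, rfl⟩

lemma per_low (hk : 0 < k) (hper : ∀ n, B (n + k) = B n) :
    ∃ b, 0 < b ∧ ∀ n, 0 < B n → b ≤ B n := by
  obtain ⟨C, hC⟩ := per_bdd (f := fun n => 1 / B n) hk (fun n => by simp only [hper])
  refine ⟨1 / (|C| + 1), by positivity, fun n hn => ?_⟩
  have h1 : 1 / B n ≤ |C| + 1 := (hC n).trans (by linarith [le_abs_self C])
  rw [div_le_iff₀ hn] at h1
  rw [div_le_iff₀ (by positivity)]
  linarith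

/-- product bound -/
lemma prod_le (hB : ∀ n, 0 ≤ B n) (h : IsSol B x) (n : ℕ) : B n * (x (n + 1) * x (n + 2)) ≤ 1 := by
  have p0 := h.pos hB n
  have p1 := h.pos hB (n + 1)
  have p2 := h.pos hB (n + 2)
  have := h.inv n
  rw [div_eq_iff p2.ne'] at this
  nlinarith [mul_pos p0 p2]

lemma inv_le (hB : ∀ n, 0 ≤ B n) (h : IsSol B x) (n : ℕ) : x n * x (n + 2) ≤ 1 := by
  have p0 := h.pos hB n
  have p1 := h.pos hB (n + 1)
  have p2 := h.pos hB (n + 2)
  have := h.inv n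
  rw [div_eq_iff p2.ne'] at this
  nlinarith [mul_nonneg (mul_nonneg (hB n) p1.le) p2.le]

lemma zero_of_prod (hB : ∀ n, 0 ≤ B n) {b : ℝ} (hb : ∀ n, 0 < B n → b ≤ B n) (hb0 : 0 < b)
    (h : IsSol B x) (n : ℕ) (hp : 1 / b < x (n + 1) * x (n + 2)) : B n = 0 := by
  by_contra h0
  have h1 : 0 < B n := lt_of_le_of_ne (hB n) (Ne.symm h0)
  have h2 := prod_le hB h n
  have h3 := hb n h1
  rw [div_lt_iff₀ hb0] at hp
  have p1 := h.pos hB (n + 1)
  have p2 := h.pos hB (n + 2)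
  nlinarith [mul_pos p1 p2]

lemma prop (hB : ∀ n, 0 ≤ B n) {b β D : ℝ} (hb : ∀ n, 0 < B n → b ≤ B n) (hb0 : 0 < b)
    (hβ : ∀ n, B n ≤ β) (hD1 : 2 * β ≤ D) (hD2 : 8 / b ≤ D) (h : IsSol B x) (n : ℕ)
    (h1 : D < x (n + 4) * x (n + 5)) (h2 : D * x (n + 4) < x (n + 5)) :
    B (n + 3) = 0 ∧ D / 4 < x n * x (n + 1) ∧ D / 4 * x n < x (n + 1) := by
  have p0 := h.pos hB n
  have p1 := h.pos hB (n + 1)
  have p2 := h.pos hB (n + 2)
  have p3 := h.pos hB (n + 3)
  have p4 := h.pos hB (n + 4)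
  have p5 := h.pos hB (n + 5)
  have hDpos : 0 < D := lt_of_lt_of_le (by positivity) hD2
  have hbD : 1 / b ≤ D / 8 := by
    have : 8 / b = 8 * (1 / b) := by ring
    linarith
  have hb1 : 0 < 1 / b := by positivity
  have hz : B (n + 3) = 0 := zero_of_prod hB hb hb0 h (n + 3) (by linarith)
  have i5 : 1 / x (n + 5) = B (n + 3) * x (n + 4) + x (n + 3) := h.inv (n + 3)
  have i4 : 1 / x (n + 4) = B (n + 2) * x (n + 3) + x (n + 2) := h.inv (n + 2)
  have i3 : 1 / x (n + 3) = B (n + 1) * x (n + 2) + x (n + 1) := h.inv (n + 1)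
  have i2 := h.inv n
  rw [hz, zero_mul, zero_add] at i5
  set a := x (n + 4) with ha
  set c := x (n + 5) with hc
  have e3 : x (n + 3) = 1 / c := i5.symm
  have e3' : 1 / x (n + 3) = c := by rw [e3, one_div_one_div]
  -- x (n+2)
  have hβ0 : 0 ≤ β := (hB 0).trans (hβ 0)
  have u1 : x (n + 2) ≤ 1 / a := by
    rw [i4]
    have := mul_nonneg (hB (n + 2)) p3.le
    linarith
  have l1 : 1 / (2 * a) ≤ x (n + 2) := by
    have e : B (n + 2) * x (n + 3) ≤ β * (1 / c) := by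
      rw [e3]
      exact mul_le_mul_of_nonneg_right (hβ _) (by positivity)
    have e' : β * (1 / c) ≤ 1 / (2 * a) := by
      rw [mul_one_div, div_le_div_iff₀ p5 (by positivity)]
      nlinarith
    have e'' : 1 / a = 1 / (2 * a) + 1 / (2 * a) := by
      field_simp
      norm_num
    rw [e''] at i4
    linarith
  have u2 : x (n + 1) ≤ c := by
    rw [← e3', i3]
    have := mul_nonneg (hB (n + 1)) p2.le
    linarith
  have l2 : c / 2 ≤ x (n + 1) := by
    have e : B (n + 1) * x (n + 2) ≤ β * (1 / a) :=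
      mul_le_mul (hβ _) u1 p2.le hβ0
    have e' : β * (1 / a) ≤ c / 2 := by
      rw [mul_one_div, div_le_div_iff₀ p4 (by norm_num)]
      nlinarith
    rw [e3'] at i3
    linarith
  have hz0 : B n = 0 := by
    apply zero_of_prod hB hb hb0 h n
    have e1 : c / 2 * (1 / (2 * a)) ≤ x (n + 1) * x (n + 2) :=
      mul_le_mul l2 l1 (by positivity) p1.le
    have e2 : D / 4 < c / 2 * (1 / (2 * a)) := by
      rw [show c / 2 * (1 / (2 * a)) = c / (4 * a) by field_simp; norm_num,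
        div_lt_div_iff₀ (by norm_num) (by positivity)]
      nlinarith
    linarith
  rw [hz0, zero_mul, zero_add] at i2
  have l0 : a ≤ x n := by
    rw [← i2]
    rw [le_div_iff₀ p2]
    rw [le_div_iff₀ p4] at u1
    linarith
  have u0 : x n ≤ 2 * a := by
    rw [← i2]
    rw [div_le_iff₀ p2]
    rw [div_le_iff₀ (by positivity)] at l1
    linarith
  refine ⟨hz, ?_, ?_⟩
  · have : a * (c / 2) ≤ x n * x (n + 1) := mul_le_mul l0 l2 (by positivity) p0.le
    linarith
  · have : D / 4 * x n ≤ D / 4 * (2 * a) := mul_le_mul_of_nonneg_left u0 (by positivity)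
    linarith

lemma prop_iter (hB : ∀ n, 0 ≤ B n) {b β D : ℝ} (hb : ∀ n, 0 < B n → b ≤ B n) (hb0 : 0 < b)
    (hβ : ∀ n, B n ≤ β) (hD1 : 2 * β ≤ D) (hD2 : 8 / b ≤ D) (h : IsSol B x) (i : ℕ) :
    ∀ n, 4 ^ i * D < x (n + 4 * i) * x (n + 4 * i + 1) →
      4 ^ i * D * x (n + 4 * i) < x (n + 4 * i + 1) → ∀ j < i, B (n + 4 * j + 3) = 0 := by
  have hDpos : 0 < D := lt_of_lt_of_le (by positivity) hD2
  induction i with
  | zero =>
    intro n _ _ j hj
    omega
  | succ i ih =>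
    intro n h1 h2 j hj
    have hpow : (1 : ℝ) ≤ 4 ^ (i + 1) := one_le_pow₀ (by norm_num)
    have hle : D ≤ 4 ^ (i + 1) * D := by nlinarith
    have h3 := prop hB hb hb0 hβ (D := 4 ^ (i + 1) * D) (hD1.trans hle) (hD2.trans hle) h
      (n + 4 * i) h1 h2
    have e : (4 : ℝ) ^ (i + 1) * D / 4 = 4 ^ i * D := by
      rw [pow_succ]
      ring
    rw [e] at h3
    rcases Nat.lt_succ_iff_lt_or_eq.mp hj with hj' | rfl
    · exact ih n h3.2.1 h3.2.2 j hj'
    · exact h3.1

theorem dichotomy (hB : ∀ n, 0 ≤ B n) (hk : 0 < k) (hper : ∀ n, B (n + k) = B n)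
    (hpos : ∀ m, ∃ i, 0 < B (m + 4 * i)) {b β : ℝ} (hb : ∀ n, 0 < B n → b ≤ B n) (hb0 : 0 < b)
    (hβ : ∀ n, B n ≤ β) (h : IsSol B x) :
    ∃ D, 1 ≤ D ∧ ∀ n, 4 * k ≤ n → x n * x (n + 1) ≤ D ∨ x (n + 1) ≤ D * x n := by
  set D := 1 + 2 * |β| + 8 / b with hD
  have h8 : 0 < 8 / b := by positivity
  have hβ' := le_abs_self β
  have hβ'' := abs_nonneg β
  have hD1 : 2 * β ≤ D := by rw [hD]; linarith
  have hD2 : 8 / b ≤ D := by rw [hD]; linarith
  have hD3 : 1 ≤ D := by rw [hD]; linarith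
  have hpow : (1 : ℝ) ≤ 4 ^ k := one_le_pow₀ (by norm_num)
  refine ⟨4 ^ k * D, by nlinarith, fun n hn => ?_⟩
  by_contra hcon
  push Not at hcon
  obtain ⟨n', rfl⟩ : ∃ n', n = n' + 4 * k := ⟨n - 4 * k, by omega⟩
  have h1 := prop_iter hB hb hb0 hβ hD1 hD2 h k n' hcon.1 hcon.2
  obtain ⟨i, hi⟩ := hpos (n' + 3)
  have h2 := h1 (i % k) (Nat.mod_lt _ hk)
  have h3 : B (n' + 3 + 4 * i) = B (n' + 4 * (i % k) + 3) := by
    have e : n' + 3 + 4 * i = n' + 4 * (i % k) + 3 + k * (4 * (i / k)) := by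
      have := Nat.mod_add_div i k
      nlinarith
    rw [e]
    exact per_mul hper _ _
  rw [h3, h2] at hi
  exact lt_irrefl _ hi

/-- predecessor of a primary high state -/
lemma pred (hB : ∀ n, 0 ≤ B n) {b β D ε : ℝ} (hb : ∀ n, 0 < B n → b ≤ B n) (hb0 : 0 < b)
    (hβ : ∀ n, B n ≤ β) (hD : 1 ≤ D) (hε0 : 0 < ε) (hε1 : ε ≤ 1) (h : IsSol B x) {q : ℕ}
    (d0 : x q * x (q + 1) ≤ D ∨ x (q + 1) ≤ D * x q)
    (d1 : x (q + 1) * x (q + 2) ≤ D ∨ x (q + 2) ≤ D * x (q + 1))
    (hprim : x (q + 4) * x (q + 5) ≤ D)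
    (hL1 : 2 * D * β ≤ ε * x (q + 5) ^ 2) (hL2 : 4 * D ^ 4 < x (q + 5) ^ 2)
    (hL3 : 4 * D ^ 3 < ε * b * x (q + 5) ^ 2) :
    ∃ n', (n' = q ∨ n' = q + 1) ∧ x n' * x (n' + 1) ≤ D ∧
      x (q + 5) ≤ 2 * D ^ 2 * x (n' + 1) ∧
      SLe (st x (q + 4)) (sc (1 + ε) (J B (st x n'))) := by
  have p0 := h.pos hB q
  have p1 := h.pos hB (q + 1)
  have p2 := h.pos hB (q + 2)
  have p3 := h.pos hB (q + 3)
  have p4 := h.pos hB (q + 4)
  have p5 := h.pos hB (q + 5)
  have i5 : 1 / x (q + 5) = B (q + 3) * x (q + 4) + x (q + 3) := h.inv (q + 3)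
  have i4 : 1 / x (q + 4) = B (q + 2) * x (q + 3) + x (q + 2) := h.inv (q + 2)
  have i3 : 1 / x (q + 3) = B (q + 1) * x (q + 2) + x (q + 1) := h.inv (q + 1)
  have i2 : 1 / x (q + 2) = B q * x (q + 1) + x q := h.inv q
  set L := x (q + 5) with hL
  set P := x (q + 2) with hP
  have hDpos : 0 < D := by linarith
  have hβ0 : 0 ≤ β := (hB 0).trans (hβ 0)
  -- `x (q+3) ≤ 1/L`
  have u3 : x (q + 3) ≤ 1 / L := by
    rw [i5]
    have := mul_nonneg (hB (q + 3)) p4.le
    linarith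
  -- `1 / x (q+4)`
  have lM : L / D ≤ 1 / x (q + 4) := by
    rw [div_le_div_iff₀ hDpos p4]
    linarith
  have uM : 1 / x (q + 4) ≤ P + β / L := by
    rw [i4]
    have : B (q + 2) * x (q + 3) ≤ β * (1 / L) := mul_le_mul (hβ _) u3 p3.le hβ0
    rw [mul_one_div] at this
    linarith
  have hβL : β / L ≤ ε * (L / (2 * D)) := by
    rw [div_le_iff₀ p5, ← mul_div_assoc, div_mul_eq_mul_div, le_div_iff₀ (by positivity)]
    nlinarith
  have hhalf : L / D = L / (2 * D) + L / (2 * D) := by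
    field_simp
    norm_num
  have hLD : 0 < L / (2 * D) := by positivity
  have lP : L / (2 * D) ≤ P := by
    have : ε * (L / (2 * D)) ≤ L / (2 * D) := by nlinarith
    linarith
  have uM' : 1 / x (q + 4) ≤ (1 + ε) * P := by
    have : ε * (L / (2 * D)) ≤ ε * P := mul_le_mul_of_nonneg_left lP hε0.le
    linarith
  have l4 : 1 / ((1 + ε) * P) ≤ x (q + 4) := by
    rw [div_le_iff₀ p4] at uM'
    rw [div_le_iff₀ (by positivity)]
    linarith
  have hLP : L ≤ 2 * D * P := by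
    rw [div_le_iff₀ (by positivity)] at lP
    linarith
  have hP2 : L ^ 2 ≤ 4 * D ^ 2 * P ^ 2 := by
    have : L ^ 2 ≤ (2 * D * P) ^ 2 := pow_le_pow_left₀ p5.le hLP 2
    nlinarith
  have hPD : D < P := by
    by_contra hcon
    push Not at hcon
    have h1 : P ^ 2 ≤ D ^ 2 := pow_le_pow_left₀ p2.le hcon 2
    have h2 : 4 * D ^ 2 * P ^ 2 ≤ 4 * D ^ 2 * D ^ 2 :=
      mul_le_mul_of_nonneg_left h1 (by positivity)
    nlinarith
  have hP3 : D < ε * b * P ^ 2 := by
    have h1 : ε * b * L ^ 2 ≤ ε * b * (4 * D ^ 2 * P ^ 2) :=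
      mul_le_mul_of_nonneg_left hP2 (by positivity)
    have h2 : 4 * D ^ 2 * D < 4 * D ^ 2 * (ε * b * P ^ 2) := by nlinarith
    exact lt_of_mul_lt_mul_left h2 (by positivity)
  rcases d1 with d1 | d1
  · -- an A-step
    have u1 : x (q + 1) ≤ ε * b * P := by
      have h1 : x (q + 1) * P ≤ (ε * b * P) * P := by nlinarith
      exact le_of_mul_le_mul_right h1 p2
    have hB1 : 0 < B (q + 1) := by
      by_contra h0
      have h0' : B (q + 1) = 0 := le_antisymm (not_lt.mp h0) (hB _)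
      rw [h0', zero_mul, zero_add] at i3
      -- then `x (q+1) = 1 / x (q+3) ≥ L`
      have h1 : L ≤ x (q + 1) := by
        rw [← i3]
        rw [le_div_iff₀ p3]
        rw [le_div_iff₀ p5] at u3
        linarith
      have h2 : L * D < x (q + 1) * P := by nlinarith
      have h3 : 1 < L := by
        have h4 : 1 ≤ D ^ 4 := one_le_pow₀ hD
        nlinarith
      nlinarith
    have hb1 := hb _ hB1
    refine ⟨q + 1, Or.inr rfl, d1, ?_, ?_⟩
    · change L ≤ 2 * D ^ 2 * P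
      nlinarith [mul_nonneg (mul_nonneg hDpos.le (sub_nonneg.mpr hD)) p2.le]
    · have hJ : J B (st x (q + 1)) =
          (q + 4, P, P * B (q + 1) / (1 + B (q + 1) * B (q + 3))) := J_A (s := st x (q + 1)) hB1
      rw [hJ]
      refine ⟨rfl, uM', ?_⟩
      change L ≤ (1 + ε) * (P * B (q + 1) / (1 + B (q + 1) * B (q + 3)))
      have l3 : 1 / ((1 + ε) * (B (q + 1) * P)) ≤ x (q + 3) := by
        have h1 : 1 / x (q + 3) ≤ (1 + ε) * (B (q + 1) * P) := by
          rw [i3]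
          have h2 : ε * b * P ≤ ε * (B (q + 1) * P) := by
            rw [mul_assoc]
            exact mul_le_mul_of_nonneg_left (mul_le_mul_of_nonneg_right hb1 p2.le) hε0.le
          linarith
        rw [div_le_iff₀ p3] at h1
        rw [div_le_iff₀ (by positivity)]
        linarith
      have b3 := hB (q + 3)
      have h5 : B (q + 3) * (1 / ((1 + ε) * P)) + 1 / ((1 + ε) * (B (q + 1) * P)) ≤ 1 / L := by
        rw [i5]
        exact add_le_add (mul_le_mul_of_nonneg_left l4 b3) l3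
      have h6 : B (q + 3) * (1 / ((1 + ε) * P)) + 1 / ((1 + ε) * (B (q + 1) * P)) =
          1 / ((1 + ε) * (P * B (q + 1) / (1 + B (q + 1) * B (q + 3)))) := by
        field_simp
        ring
      rw [h6] at h5
      exact (one_div_le_one_div (by positivity) p5).mp h5
  · -- an R-step
    have hx1 : P / D ≤ x (q + 1) := by
      rw [div_le_iff₀ hDpos]
      linarith
    have hB0 : B q = 0 := by
      apply zero_of_prod hB hb hb0 h q
      have h1 : P / D * P ≤ x (q + 1) * x (q + 2) := mul_le_mul_of_nonneg_right hx1 p2.le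
      have h2 : 1 / b < P / D * P := by
        rw [div_mul_eq_mul_div, div_lt_div_iff₀ hb0 hDpos]
        have : ε * b * P ^ 2 ≤ 1 * (b * P ^ 2) := by
          rw [mul_assoc]
          exact mul_le_mul_of_nonneg_right hε1 (by positivity)
        nlinarith
      linarith
    rw [hB0, zero_mul, zero_add] at i2
    have hprim0 : x q * x (q + 1) ≤ D := by
      rcases d0 with d0 | d0
      · exact d0
      · exfalso
        rw [← i2, mul_one_div, le_div_iff₀ p2] at d0
        have h1 : P / D * P ≤ x (q + 1) * P := mul_le_mul_of_nonneg_right hx1 p2.le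
        rw [div_mul_eq_mul_div, div_le_iff₀ hDpos] at h1
        nlinarith
    refine ⟨q, Or.inl rfl, hprim0, ?_, ?_⟩
    · rw [div_le_iff₀ hDpos] at hx1
      nlinarith
    · have hJ : J B (st x q) =
          (q + 4, 1 / x q, 1 / (B (q + 3) / (1 / x q) + 1 / (B (q + 1) * (1 / x q) + x (q + 1)))) :=
        J_R (s := st x q) (by change ¬ 0 < B q; rw [hB0]; exact lt_irrefl 0)
      have hM : 1 / x q = P := by rw [← i2, one_div_one_div]
      rw [hM] at hJ
      rw [hJ]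
      refine ⟨rfl, uM', ?_⟩
      change L ≤ (1 + ε) * (1 / (B (q + 3) / P + 1 / (B (q + 1) * P + x (q + 1))))
      have b1 := hB (q + 1)
      have b3 := hB (q + 3)
      have e3 : x (q + 3) = 1 / (B (q + 1) * P + x (q + 1)) := h.step (q + 1)
      have h5 : 1 / ((1 + ε) * (1 / (B (q + 3) / P + 1 / (B (q + 1) * P + x (q + 1))))) ≤
          1 / L := by
        rw [i5, ← e3]
        have h6 : 1 / ((1 + ε) * (1 / (B (q + 3) / P + x (q + 3)))) =
            B (q + 3) * (1 / ((1 + ε) * P)) + x (q + 3) / (1 + ε) := by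
          field_simp
        rw [h6]
        apply add_le_add (mul_le_mul_of_nonneg_left l4 b3)
        exact div_le_self p3.le (by linarith)
      have b3' : 0 ≤ B (q + 3) / P := div_nonneg b3 p2.le
      exact (one_div_le_one_div (by positivity) p5).mp h5

end

end V11196.RR
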