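import Pool.Agent.V11196.RR.Defs

/-! Basic properties of the transfer map. -/

namespace V11196.RR

noncomputable section

variable {B x : ℕ → ℝ} {k : ℕ}

lemma IsSol.pos (hB : ∀ n, 0 ≤ B n) (h : IsSol B x) (n : ℕ) : 0 < x n := by
  have : 0 < x n ∧ 0 < x (n + 1) := by
    induction n with
    | zero => exact ⟨h.pos0, h.pos1⟩
    | succ n ih =>
      refine ⟨ih.2, ?_⟩
      rw [h.step n]
      have := hB n
      have h1 := ih.1
      have h2 := ih.2
      positivity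
  exact this.1

/-- positive states -/
def Pos (s : ℕ × ℝ × ℝ) : Prop := 0 < s.2.1 ∧ 0 < s.2.2

/-- scaling -/
def sc (c : ℝ) (s : ℕ × ℝ × ℝ) : ℕ × ℝ × ℝ := (s.1, c * s.2.1, c * s.2.2)

/-- time shift -/
def sh (k : ℕ) (s : ℕ × ℝ × ℝ) : ℕ × ℝ × ℝ := (s.1 + k, s.2.1, s.2.2)

/-- comparison of states -/
structure SLe (s s' : ℕ × ℝ × ℝ) : Prop where
  t : s.1 = s'.1
  m : s.2.1 ≤ s'.2.1
  l : s.2.2 ≤ s'.2.2

lemma SLe.refl (s : ℕ × ℝ × ℝ) : SLe s s := ⟨rfl, le_rfl, le_rfl⟩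

lemma SLe.trans {s s' s'' : ℕ × ℝ × ℝ} (h : SLe s s') (h' : SLe s' s'') : SLe s s'' :=
  ⟨h.t.trans h'.t, h.m.trans h'.m, h.l.trans h'.l⟩

lemma J_A {s : ℕ × ℝ × ℝ} (h : 0 < B s.1) :
    J B s = (s.1 + 3, s.2.2, s.2.2 * B s.1 / (1 + B s.1 * B (s.1 + 2))) := if_pos h

lemma J_R {s : ℕ × ℝ × ℝ} (h : ¬ 0 < B s.1) :
    J B s = (s.1 + 4, s.2.1, 1 / (B (s.1 + 3) / s.2.1 + 1 / (B (s.1 + 1) * s.2.1 + s.2.2))) :=
  if_neg h

lemma J_time {s s' : ℕ × ℝ × ℝ} (h : s.1 = s'.1) : (J B s).1 = (J B s').1 := by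
  by_cases h0 : 0 < B s.1
  · rw [J_A h0, J_A (h ▸ h0)]
    simp [h]
  · rw [J_R h0, J_R (h ▸ h0)]
    simp [h]

lemma J_pos (hB : ∀ n, 0 ≤ B n) {s : ℕ × ℝ × ℝ} (hs : Pos s) : Pos (J B s) := by
  obtain ⟨h1, h2⟩ := hs
  by_cases h0 : 0 < B s.1
  · rw [J_A h0]
    have := hB (s.1 + 2)
    exact ⟨h2, by positivity⟩
  · rw [J_R h0]
    have := hB (s.1 + 3)
    have := hB (s.1 + 1)
    exact ⟨h1, by positivity⟩

lemma J_sc (hB : ∀ n, 0 ≤ B n) {s : ℕ × ℝ × ℝ} (hs : Pos s) {c : ℝ} (hc : 0 < c) :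
    J B (sc c s) = sc c (J B s) := by
  obtain ⟨h1, h2⟩ := hs
  by_cases h0 : 0 < B s.1
  · rw [J_A h0, J_A (s := sc c s) h0]
    simp only [sc]
    refine Prod.ext rfl (Prod.ext rfl ?_)
    ring
  · rw [J_R h0, J_R (s := sc c s) h0]
    simp only [sc]
    refine Prod.ext rfl (Prod.ext rfl ?_)
    have h3 := hB (s.1 + 3)
    have h4 := hB (s.1 + 1)
    have e1 : B (s.1 + 3) / (c * s.2.1) = (B (s.1 + 3) / s.2.1) / c := by
      rw [div_div, mul_comm]
    have e2 : 1 / (B (s.1 + 1) * (c * s.2.1) + c * s.2.2) =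
        (1 / (B (s.1 + 1) * s.2.1 + s.2.2)) / c := by
      rw [div_div]
      congr 1
      ring
    change 1 / (B (s.1 + 3) / (c * s.2.1) + 1 / (B (s.1 + 1) * (c * s.2.1) + c * s.2.2)) = _
    rw [e1, e2, ← add_div, one_div_div, mul_one_div]

lemma J_mono (hB : ∀ n, 0 ≤ B n) {s s' : ℕ × ℝ × ℝ} (hs : Pos s) (h : SLe s s') :
    SLe (J B s) (J B s') := by
  obtain ⟨h1, h2⟩ := hs
  obtain ⟨ht, hm, hl⟩ := h
  have h1' : 0 < s'.2.1 := h1.trans_le hm
  have h2' : 0 < s'.2.2 := h2.trans_le hl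
  by_cases h0 : 0 < B s.1
  · rw [J_A h0, J_A (ht ▸ h0), ← ht]
    have := hB (s.1 + 2)
    refine ⟨rfl, hl, ?_⟩
    exact div_le_div_of_nonneg_right (mul_le_mul_of_nonneg_right hl h0.le) (by positivity)
  · rw [J_R h0, J_R (ht ▸ h0), ← ht]
    have h3 := hB (s.1 + 3)
    have h4 := hB (s.1 + 1)
    refine ⟨rfl, hm, ?_⟩
    apply one_div_le_one_div_of_le (by positivity)
    apply add_le_add
    · exact div_le_div_of_nonneg_left h3 h1 hm
    · apply one_div_le_one_div_of_le (by positivity)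
      exact add_le_add (mul_le_mul_of_nonneg_left hm h4) hl

lemma J_strict (hB : ∀ n, 0 ≤ B n) {s s' : ℕ × ℝ × ℝ} (hs : Pos s) (h : SLe s s')
    (hlt : s.2.2 < s'.2.2) : (J B s).2.2 < (J B s').2.2 := by
  obtain ⟨h1, h2⟩ := hs
  obtain ⟨ht, hm, hl⟩ := h
  have h1' : 0 < s'.2.1 := h1.trans_le hm
  have h2' : 0 < s'.2.2 := h2.trans_le hl
  by_cases h0 : 0 < B s.1
  · rw [J_A h0, J_A (ht ▸ h0), ← ht]
    have := hB (s.1 + 2)
    exact div_lt_div_of_pos_right (mul_lt_mul_of_pos_right hlt h0) (by positivity)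
  · rw [J_R h0, J_R (ht ▸ h0), ← ht]
    have h3 := hB (s.1 + 3)
    have h4 := hB (s.1 + 1)
    apply one_div_lt_one_div_of_lt (by positivity)
    apply add_lt_add_of_le_of_lt
    · exact div_le_div_of_nonneg_left h3 h1 hm
    · apply one_div_lt_one_div_of_lt (by positivity)
      exact add_lt_add_of_le_of_lt (mul_le_mul_of_nonneg_left hm h4) hlt

lemma J_sh (hper : ∀ n, B (n + k) = B n) (s : ℕ × ℝ × ℝ) : J B (sh k s) = sh k (J B s) := by
  have e : B (s.1 + k) = B s.1 := hper _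
  have e1 : B (s.1 + k + 1) = B (s.1 + 1) := by rw [add_right_comm, hper]
  have e2 : B (s.1 + k + 2) = B (s.1 + 2) := by rw [add_right_comm, hper]
  have e3 : B (s.1 + k + 3) = B (s.1 + 3) := by rw [add_right_comm, hper]
  by_cases h0 : 0 < B s.1
  · rw [J_A h0, J_A (s := sh k s) (by rw [sh, e]; exact h0)]
    simp only [sh, e, e2]
    rw [add_right_comm]
  · rw [J_R h0, J_R (s := sh k s) (by rw [sh, e]; exact h0)]
    simp only [sh, e1, e3]
    rw [add_right_comm]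

/-! iterates -/

lemma it_pos (hB : ∀ n, 0 ≤ B n) {s : ℕ × ℝ × ℝ} (hs : Pos s) (j : ℕ) : Pos ((J B)^[j] s) := by
  induction j with
  | zero => exact hs
  | succ j ih =>
    rw [Function.iterate_succ_apply']
    exact J_pos hB ih

lemma it_time {s s' : ℕ × ℝ × ℝ} (h : s.1 = s'.1) (j : ℕ) :
    ((J B)^[j] s).1 = ((J B)^[j] s').1 := by
  induction j with
  | zero => exact h
  | succ j ih =>
    rw [Function.iterate_succ_apply', Function.iterate_succ_apply']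
    exact J_time ih

lemma it_sc (hB : ∀ n, 0 ≤ B n) {s : ℕ × ℝ × ℝ} (hs : Pos s) {c : ℝ} (hc : 0 < c) (j : ℕ) :
    (J B)^[j] (sc c s) = sc c ((J B)^[j] s) := by
  induction j with
  | zero => rfl
  | succ j ih =>
    rw [Function.iterate_succ_apply', Function.iterate_succ_apply', ih, J_sc hB (it_pos hB hs j) hc]

lemma it_mono (hB : ∀ n, 0 ≤ B n) {s s' : ℕ × ℝ × ℝ} (hs : Pos s) (h : SLe s s') (j : ℕ) :
    SLe ((J B)^[j] s) ((J B)^[j] s') := by
  induction j with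
  | zero => exact h
  | succ j ih =>
    rw [Function.iterate_succ_apply', Function.iterate_succ_apply']
    exact J_mono hB (it_pos hB hs j) ih

lemma it_strict (hB : ∀ n, 0 ≤ B n) {s s' : ℕ × ℝ × ℝ} (hs : Pos s) (h : SLe s s')
    (hlt : s.2.2 < s'.2.2) (j : ℕ) : ((J B)^[j] s).2.2 < ((J B)^[j] s').2.2 := by
  induction j with
  | zero => exact hlt
  | succ j ih =>
    rw [Function.iterate_succ_apply', Function.iterate_succ_apply']
    exact J_strict hB (it_pos hB hs j) (it_mono hB hs h j) ih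

lemma it_sh (hper : ∀ n, B (n + k) = B n) (s : ℕ × ℝ × ℝ) (j : ℕ) :
    (J B)^[j] (sh k s) = sh k ((J B)^[j] s) := by
  induction j with
  | zero => rfl
  | succ j ih =>
    rw [Function.iterate_succ_apply', Function.iterate_succ_apply', ih, J_sh hper]

lemma it_A (hB : ∀ n, 0 ≤ B n) {t : ℕ} (ht : 0 < B t) {M L : ℝ} (hL : 0 < L) {j : ℕ}
    (hj : 0 < j) : (J B)^[j] (t, M, L) = sc L ((J B)^[j] (t, 1, 1)) := by
  obtain ⟨i, rfl⟩ := Nat.exists_eq_succ_of_ne_zero hj.ne'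
  rw [Function.iterate_succ_apply, Function.iterate_succ_apply]
  have h1 : J B (t, M, L) = sc L (J B (t, 1, 1)) := by
    rw [J_A (s := (t, M, L)) ht, J_A (s := (t, 1, 1)) ht]
    simp only [sc]
    refine Prod.ext rfl (Prod.ext ?_ ?_)
    · simp
    · simp only [one_mul]
      rw [mul_div_assoc]
  have hp : Pos (J B (t, 1, 1)) := J_pos hB ⟨one_pos, one_pos⟩
  rw [h1, it_sc hB hp hL]

lemma per_mul (hper : ∀ n, B (n + k) = B n) (n c : ℕ) : B (n + k * c) = B n := by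
  induction c with
  | zero => simp
  | succ c ih => rw [mul_add, mul_one, ← add_assoc, hper, ih]

lemma it_modEq (hper : ∀ n, B (n + k) = B n) {t t' : ℕ} (h : t ≡ t' [MOD k]) (j : ℕ) (M L : ℝ) :
    ((J B)^[j] (t, M, L)).2 = ((J B)^[j] (t', M, L)).2 := by
  have key : ∀ t c : ℕ, ((J B)^[j] (t + k * c, M, L)).2 = ((J B)^[j] (t, M, L)).2 := by
    intro t c
    have h1 := it_sh (k := k * c) (fun n => per_mul hper n c) (t, M, L) j
    rw [show sh (k * c) (t, M, L) = (t + k * c, M, L) from rfl] at h1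
    rw [h1]
    rfl
  rcases le_total t t' with hle | hle
  · obtain ⟨c, hc⟩ := (Nat.modEq_iff_dvd' hle).mp h
    have : t' = t + k * c := by omega
    rw [this, key]
  · obtain ⟨c, hc⟩ := (Nat.modEq_iff_dvd' hle).mp h.symm
    have : t = t' + k * c := by omega
    rw [this, key]

end

end V11196.RR
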