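import Mathlib

/-! Definitions for the recurrence `x_{n+1} = 1 / (B_n x_n + x_{n-1})` (MP_2c9a54). -/

namespace V11196.RR

noncomputable section

/-- `x` is a positive solution of the recurrence; the sequence is written with the index shifted by
one, that is, `x n` stands for `x_{n-1}` of the problem. -/
structure IsSol (B x : ℕ → ℝ) : Prop where
  pos0 : 0 < x 0
  pos1 : 0 < x 1
  step : ∀ n, x (n + 2) = 1 / (B n * x (n + 1) + x n)

/-- The leading-order transfer map, acting on triples `(t, M, L)`, where `t` is a time and `M`, `L`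
are positive numbers (the leading parts of `1 / x_{t-1}` and of `x_t`).  The time increases by `3`
if `B_t > 0` and by `4` if `B_t = 0`. -/
def J (B : ℕ → ℝ) (s : ℕ × ℝ × ℝ) : ℕ × ℝ × ℝ :=
  if 0 < B s.1 then (s.1 + 3, s.2.2, s.2.2 * B s.1 / (1 + B s.1 * B (s.1 + 2)))
  else (s.1 + 4, s.2.1, 1 / (B (s.1 + 3) / s.2.1 + 1 / (B (s.1 + 1) * s.2.1 + s.2.2)))

/-- First alternative: all coefficients with index in some class modulo `2` vanish, and each of the
two classes modulo `4` which make up the other class modulo `2` contains an index with a positive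
coefficient. -/
def CondI (B : ℕ → ℝ) : Prop :=
  ∃ m, (∀ i, B (m + 2 * i) = 0) ∧ (∃ i, 0 < B (m + 1 + 4 * i)) ∧ ∃ i, 0 < B (m + 3 + 4 * i)

/-- Second alternative: every class modulo `4` contains an index with a positive coefficient, and
for every `m` with `B_m > 0`, whenever the iteration of the transfer map started at `(m, 1, 1)`
is at a time congruent to `m` modulo `k`, its last component is less than `1`. -/
def CondII (B : ℕ → ℝ) (k : ℕ) : Prop :=
  (∀ m, ∃ i, 0 < B (m + 4 * i)) ∧
    ∀ m j, 0 < B m → 0 < j → ((J B)^[j] (m, 1, 1)).1 ≡ m [MOD k] → ((J B)^[j] (m, 1, 1)).2.2 < 1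

end

end V11196.RR
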