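import Pool.Agent.V11196.RR.Main

/-! Finite form of the criterion. -/

namespace V11196.RR

noncomputable section

variable {B x : ℕ → ℝ} {k : ℕ}

lemma red (hper : ∀ n, B (n + k) = B n) (m c i : ℕ) :
    B (m + c * i) = B (m + c * (i % k)) := by
  have e : m + c * i = m + c * (i % k) + k * (c * (i / k)) := by
    have := Nat.mod_add_div i k
    calc m + c * i = m + c * (i % k + k * (i / k)) := by rw [this]
      _ = _ := by ring
  rw [e]
  exact per_mul hper _ _

lemma time_sh (hper : ∀ n, B (n + k) = B n) (m c j : ℕ) :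
    ((J B)^[j] (m + k * c, 1, 1)).1 = ((J B)^[j] (m, 1, 1)).1 + k * c := by
  have h1 := it_sh (k := k * c) (fun n => per_mul hper n c) (m, 1, 1) j
  rw [show sh (k * c) (m, (1 : ℝ), (1 : ℝ)) = (m + k * c, 1, 1) from rfl] at h1
  rw [h1]
  rfl

lemma time_modEq (hper : ∀ n, B (n + k) = B n) {m m' : ℕ} (h : m ≡ m' [MOD k]) (j : ℕ) :
    ((J B)^[j] (m, 1, 1)).1 ≡ ((J B)^[j] (m', 1, 1)).1 [MOD k] := by
  rcases le_total m m' with hle | hle
  · obtain ⟨c, hc⟩ := (Nat.modEq_iff_dvd' hle).mp h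
    have : m' = m + k * c := by omega
    rw [this, time_sh hper]
    unfold Nat.ModEq
    rw [Nat.add_mul_mod_self_left]
  · obtain ⟨c, hc⟩ := (Nat.modEq_iff_dvd' hle).mp h.symm
    have : m = m' + k * c := by omega
    rw [this, time_sh hper]
    unfold Nat.ModEq
    rw [Nat.add_mul_mod_self_left]

lemma time_add (i j m : ℕ) : ((J B)^[i + j] (m, 1, 1)).1 =
    ((J B)^[i] (((J B)^[j] (m, 1, 1)).1, 1, 1)).1 := by
  rw [Function.iterate_add_apply]
  exact it_time (s := (J B)^[j] (m, 1, 1)) (s' := (((J B)^[j] (m, 1, 1)).1, 1, 1)) rfl i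

/-- the cycle condition follows from its restriction to `m < k`, `j ≤ k` -/
lemma cyc_fin (hB : ∀ n, 0 ≤ B n) (hk : 0 < k) (hper : ∀ n, B (n + k) = B n)
    (h : ∀ m < k, ∀ j ≤ k, 0 < j → 0 < B m → ((J B)^[j] (m, 1, 1)).1 ≡ m [MOD k] →
      ((J B)^[j] (m, 1, 1)).2.2 < 1) :
    ∀ m j, 0 < B m → 0 < j → ((J B)^[j] (m, 1, 1)).1 ≡ m [MOD k] →
      ((J B)^[j] (m, 1, 1)).2.2 < 1 := by
  classical
  have hp1 : ∀ t : ℕ, Pos (t, (1 : ℝ), (1 : ℝ)) := fun t => ⟨one_pos, one_pos⟩
  -- short returns, general `m`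
  have h1 : ∀ m, ∀ j ≤ k, 0 < j → 0 < B m → ((J B)^[j] (m, 1, 1)).1 ≡ m [MOD k] →
      ((J B)^[j] (m, 1, 1)).2.2 < 1 := by
    intro m j hj hj0 hm ht
    have hmod : m % k ≡ m [MOD k] := Nat.mod_modEq m k
    have hBm : B (m % k) = B m := by
      conv_rhs => rw [← Nat.mod_add_div m k]
      rw [per_mul hper]
    rw [← it_modEq hper hmod]
    apply h _ (Nat.mod_lt _ hk) j hj hj0 (by rw [hBm]; exact hm)
    exact (time_modEq hper hmod j).trans (ht.trans hmod.symm)
  intro m j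
  induction j using Nat.strong_induction_on with
  | _ j ih =>
    intro hm hj ht
    have hex : ∃ j, 0 < j ∧ ((J B)^[j] (m, 1, 1)).1 ≡ m [MOD k] := ⟨j, hj, ht⟩
    set a := Nat.find hex with ha
    obtain ⟨ha0, hat⟩ := Nat.find_spec hex
    have hmin : ∀ b < a, 0 < b → ¬ ((J B)^[b] (m, 1, 1)).1 ≡ m [MOD k] :=
      fun b hb hb0 hc => Nat.find_min hex hb ⟨hb0, hc⟩
    have haj : a ≤ j := Nat.find_min' hex ⟨hj, ht⟩
    have hak : a ≤ k := by
      by_contra hcon
      push Not at hcon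
      have hcard : (Finset.range k).card < (Finset.range a).card := by simpa using hcon
      obtain ⟨b, hb, c, hc, hbc, heq⟩ := Finset.exists_ne_map_eq_of_card_lt_of_maps_to hcard
        (f := fun i => ((J B)^[i] (m, 1, 1)).1 % k)
        (fun i _ => Finset.mem_coe.mpr (Finset.mem_range.mpr (Nat.mod_lt _ hk)))
      rw [Finset.mem_range] at hb hc
      have key : ∀ b c, b < c → c < a → ((J B)^[b] (m, 1, 1)).1 ≡ ((J B)^[c] (m, 1, 1)).1 [MOD k] →
          False := by
        intro b c hbc hca hh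
        apply hmin ((a - c) + b) (by omega) (by omega)
        rw [time_add]
        refine (time_modEq hper hh (a - c)).trans ?_
        rw [← time_add, show a - c + c = a by omega]
        exact hat
      rcases lt_or_gt_of_ne hbc with hlt | hlt
      · exact key b c hlt hc heq
      · exact key c b hlt hb heq.symm
    have hva := h1 m a hak ha0 hm hat
    rcases haj.lt_or_eq with hlt | heq
    · have hs : 0 < B ((J B)^[a] (m, 1, 1)).1 := by
        have e : B ((J B)^[a] (m, 1, 1)).1 = B m := by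
          have e1 : B ((J B)^[a] (m, 1, 1)).1 = B (((J B)^[a] (m, 1, 1)).1 % k) := by
            conv_lhs => rw [← Nat.mod_add_div ((J B)^[a] (m, 1, 1)).1 k]
            rw [per_mul hper]
          have e2 : B m = B (m % k) := by
            conv_lhs => rw [← Nat.mod_add_div m k]
            rw [per_mul hper]
          rw [e1, e2, hat]
        rw [e]
        exact hm
      have hva0 : 0 < ((J B)^[a] (m, 1, 1)).2.2 := (it_pos hB (hp1 m) a).2
      have hsplit : (J B)^[j] (m, 1, 1) = sc ((J B)^[a] (m, 1, 1)).2.2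
          ((J B)^[j - a] (((J B)^[a] (m, 1, 1)).1, 1, 1)) := by
        have e : j = (j - a) + a := by omega
        conv_lhs => rw [e, Function.iterate_add_apply]
        exact it_A hB hs hva0 (by omega)
      rw [hsplit]
      change ((J B)^[a] (m, 1, 1)).2.2 *
        ((J B)^[j - a] (((J B)^[a] (m, 1, 1)).1, 1, 1)).2.2 < 1
      rw [it_modEq hper hat]
      have h3 : ((J B)^[j - a] (m, 1, 1)).1 ≡ m [MOD k] := by
        refine (time_modEq hper hat.symm (j - a)).trans ?_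
        rw [← time_add, show j - a + a = j by omega]
        exact ht
      have h4 := ih (j - a) (by omega) hm (by omega) h3
      have h5 : 0 < ((J B)^[j - a] (m, 1, 1)).2.2 := (it_pos hB (hp1 m) _).2
      nlinarith
    · rw [← heq]
      exact hva

lemma condI_iff (hk : 0 < k) (hper : ∀ n, B (n + k) = B n) :
    CondI B ↔ ∃ m < 4, (∀ i < k, B (m + 2 * i) = 0) ∧ (∃ i < k, 0 < B (m + 1 + 4 * i)) ∧
      ∃ i < k, 0 < B (m + 3 + 4 * i) := by
  constructor
  · rintro ⟨m, h0, ⟨i1, h1⟩, ⟨i3, h3⟩⟩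
    refine ⟨m % 4, Nat.mod_lt _ (by norm_num), ?_, ?_, ?_⟩
    · intro i _
      have e : B (m % 4 + 2 * i) = B (m + 2 * (i + (k * (2 * (m / 4)) - 2 * (m / 4)))) := by
        rw [← per_mul hper (m % 4 + 2 * i) (4 * (m / 4))]
        congr 1
        have h5 : 2 * (m / 4) ≤ k * (2 * (m / 4)) := Nat.le_mul_of_pos_left _ hk
        have h6 := Nat.mod_add_div m 4
        have h7 : k * (4 * (m / 4)) = 2 * (k * (2 * (m / 4))) := by ring
        omega
      rw [e]
      exact h0 _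
    · refine ⟨(m / 4 + i1) % k, Nat.mod_lt _ hk, ?_⟩
      rw [← red hper]
      have e : m % 4 + 1 + 4 * (m / 4 + i1) = m + 1 + 4 * i1 := by
        have := Nat.mod_add_div m 4
        omega
      rw [e]
      exact h1
    · refine ⟨(m / 4 + i3) % k, Nat.mod_lt _ hk, ?_⟩
      rw [← red hper]
      have e : m % 4 + 3 + 4 * (m / 4 + i3) = m + 3 + 4 * i3 := by
        have := Nat.mod_add_div m 4
        omega
      rw [e]
      exact h3
  · rintro ⟨m, -, h0, ⟨i1, -, h1⟩, ⟨i3, -, h3⟩⟩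
    refine ⟨m, fun i => ?_, ⟨i1, h1⟩, ⟨i3, h3⟩⟩
    rw [red hper]
    exact h0 _ (Nat.mod_lt _ hk)

lemma condII_iff (hB : ∀ n, 0 ≤ B n) (hk : 0 < k) (hper : ∀ n, B (n + k) = B n) :
    CondII B k ↔ (∀ m < 4, ∃ i < k, 0 < B (m + 4 * i)) ∧
      ∀ m < k, ∀ j ≤ k, 0 < j → 0 < B m → ((J B)^[j] (m, 1, 1)).1 ≡ m [MOD k] →
        ((J B)^[j] (m, 1, 1)).2.2 < 1 := by
  constructor
  · rintro ⟨h1, h2⟩
    refine ⟨fun m _ => ?_, fun m _ j _ hj hm ht => h2 m j hm hj ht⟩
    obtain ⟨i, hi⟩ := h1 m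
    exact ⟨i % k, Nat.mod_lt _ hk, by rw [← red hper]; exact hi⟩
  · rintro ⟨h1, h2⟩
    refine ⟨fun m => ?_, cyc_fin hB hk hper h2⟩
    obtain ⟨i, -, hi⟩ := h1 (m % 4) (Nat.mod_lt _ (by norm_num))
    refine ⟨i + (k * (m / 4) - m / 4), ?_⟩
    have e : m + 4 * (i + (k * (m / 4) - m / 4)) = m % 4 + 4 * i + k * (4 * (m / 4)) := by
      have h5 : m / 4 ≤ k * (m / 4) := Nat.le_mul_of_pos_left _ hk
      have h6 := Nat.mod_add_div m 4
      have h7 : k * (4 * (m / 4)) = 4 * (k * (m / 4)) := by ring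
      omega
    rw [e, per_mul hper]
    exact hi

end

end V11196.RR
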