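import Pool.Agent.V11196.RR.Core

/-! Lower bounds for solutions: unbounded cases. -/

namespace V11196.RR

noncomputable section

variable {B x : ℕ → ℝ} {k : ℕ}

/-- the state of a solution at time `n` -/
def st (x : ℕ → ℝ) (n : ℕ) : ℕ × ℝ × ℝ := (n, 1 / x n, x (n + 1))

lemma st_pos (hB : ∀ n, 0 ≤ B n) (h : IsSol B x) (n : ℕ) : Pos (st x n) :=
  ⟨one_div_pos.mpr (h.pos hB n), h.pos hB _⟩

lemma IsSol.inv (h : IsSol B x) (n : ℕ) : 1 / x (n + 2) = B n * x (n + 1) + x n := by
  rw [h.step n, one_div_one_div]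

lemma J_le_st (hB : ∀ n, 0 ≤ B n) (h : IsSol B x) (n : ℕ) :
    SLe (J B (st x n)) (st x (J B (st x n)).1) := by
  have p0 := h.pos hB n
  have p1 := h.pos hB (n + 1)
  have p2 := h.pos hB (n + 2)
  have p3 := h.pos hB (n + 3)
  have p4 := h.pos hB (n + 4)
  have p5 := h.pos hB (n + 5)
  have b1 := hB (n + 1)
  have b2 := hB (n + 2)
  have b3 := hB (n + 3)
  have i2 := h.inv n
  have i3 : 1 / x (n + 3) = B (n + 1) * x (n + 2) + x (n + 1) := h.inv (n + 1)
  have i4 : 1 / x (n + 4) = B (n + 2) * x (n + 3) + x (n + 2) := h.inv (n + 2)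
  have i5 : 1 / x (n + 5) = B (n + 3) * x (n + 4) + x (n + 3) := h.inv (n + 3)
  by_cases h0 : 0 < B n
  · rw [J_A (s := st x n) h0]
    refine ⟨rfl, ?_, ?_⟩
    · change x (n + 1) ≤ 1 / x (n + 3)
      rw [i3]
      have : 0 ≤ B (n + 1) * x (n + 2) := by positivity
      linarith
    · change x (n + 1) * B n / (1 + B n * B (n + 2)) ≤ x (n + 4)
      have e1 : x (n + 3) ≤ 1 / x (n + 1) := by
        rw [le_div_iff₀ p1]
        have : x (n + 3) * (1 / x (n + 3)) = 1 := by field_simp
        rw [i3] at this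
        nlinarith [mul_pos p3 p1, mul_nonneg p3.le (mul_nonneg b1 p2.le)]
      have e2 : x (n + 2) ≤ 1 / (B n * x (n + 1)) := by
        rw [h.step n]
        apply one_div_le_one_div_of_le (by positivity)
        linarith
      have e3 : 1 / x (n + 4) ≤ B (n + 2) * (1 / x (n + 1)) + 1 / (B n * x (n + 1)) := by
        rw [i4]
        exact add_le_add (mul_le_mul_of_nonneg_left e1 b2) e2
      have e4 : B (n + 2) * (1 / x (n + 1)) + 1 / (B n * x (n + 1)) =
          (1 + B n * B (n + 2)) / (x (n + 1) * B n) := by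
        field_simp
        ring
      rw [e4, div_le_div_iff₀ p4 (by positivity), one_mul] at e3
      rw [div_le_iff₀ (by positivity)]
      linarith
  · have h1 : B n = 0 := le_antisymm (not_lt.mp h0) (hB n)
    rw [J_R (s := st x n) h0]
    have e0 : x (n + 2) = 1 / x n := by rw [h.step n, h1, zero_mul, zero_add]
    have e3 : x (n + 3) = 1 / (B (n + 1) * (1 / x n) + x (n + 1)) := by
      rw [h.step (n + 1), ← e0]
    have e4 : 1 / x n ≤ 1 / x (n + 4) := by
      rw [i4, ← e0]
      have : 0 ≤ B (n + 2) * x (n + 3) := by positivity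
      linarith
    refine ⟨rfl, e4, ?_⟩
    change 1 / (B (n + 3) / (1 / x n) + 1 / (B (n + 1) * (1 / x n) + x (n + 1))) ≤ x (n + 5)
    have e5 : x (n + 5) = 1 / (B (n + 3) * x (n + 4) + x (n + 3)) := h.step (n + 3)
    rw [e5, ← e3]
    apply one_div_le_one_div_of_le (by positivity)
    have e6 : B (n + 3) * x (n + 4) ≤ B (n + 3) / (1 / x n) := by
      rw [div_div_eq_mul_div, div_one]
      apply mul_le_mul_of_nonneg_left _ b3
      exact (one_div_le_one_div p0 p4).mp e4
    linarith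

lemma it_le_st (hB : ∀ n, 0 ≤ B n) (h : IsSol B x) {s : ℕ × ℝ × ℝ} (hs : Pos s)
    (hle : SLe s (st x s.1)) (j : ℕ) :
    SLe ((J B)^[j] s) (st x ((J B)^[j] s).1) := by
  induction j with
  | zero => exact hle
  | succ j ih =>
    rw [Function.iterate_succ_apply']
    have h1 := J_mono hB (it_pos hB hs j) ih
    have h2 := J_le_st hB h ((J B)^[j] s).1
    have h3 := h1.trans h2
    have h4 : (J B (st x ((J B)^[j] s).1)).1 = (J B ((J B)^[j] s)).1 := h1.t.symm
    rw [h4] at h3
    exact h3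

/-- lower bound for bounded solutions -/
lemma low (hB : ∀ n, 0 ≤ B n) (h : IsSol B x) {β K : ℝ} (hβ : ∀ n, B n ≤ β)
    (hK : ∀ n, x n ≤ K) (n : ℕ) : 1 / ((β + 1) * K) ≤ x (n + 2) := by
  rw [h.step n]
  have p0 := h.pos hB n
  have p1 := h.pos hB (n + 1)
  have := hB n
  apply one_div_le_one_div_of_le (by positivity)
  have h1 : B n * x (n + 1) ≤ β * K :=
    mul_le_mul (hβ n) (hK _) p1.le ((hB n).trans (hβ n))
  linarith [hK n]

/-- a monotone sequence with periodic gains is unbounded -/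
lemma incr {a : ℕ → ℝ} (hk : 0 < k) {δ K : ℝ} (hδ : 0 < δ) (i0 : ℕ) (ha : ∀ i, 0 ≤ a i)
    (h1 : ∀ i, a i ≤ a (i + 1)) (h2 : ∀ n, a (i0 + k * n) + δ ≤ a (i0 + k * n + 1))
    (hK : ∀ i, a i ≤ K) : False := by
  have hmono : Monotone a := monotone_nat_of_le_succ h1
  have key : ∀ n : ℕ, n * δ ≤ a (i0 + k * n) := by
    intro n
    induction n with
    | zero => simpa using ha (i0 + k * 0)
    | succ n ih =>
      have h3 := h2 n
      have h4 : a (i0 + k * n + 1) ≤ a (i0 + k * (n + 1)) := hmono (by nlinarith)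
      push_cast
      linarith
  obtain ⟨n, hn⟩ := exists_nat_gt (K / δ)
  rw [div_lt_iff₀ hδ] at hn
  linarith [key n, hK (i0 + k * n)]

theorem unb_Z (hB : ∀ n, 0 ≤ B n) (hk : 0 < k) (hper : ∀ n, B (n + k) = B n) {β : ℝ}
    (hβ : ∀ n, B n ≤ β) {s : ℕ} (hz : ∀ i, B (s + 4 * i) = 0)
    (hp : ∃ i, 0 < B (s + 2 + 4 * i)) (h : IsSol B x) : ¬ BddAbove (Set.range x) := by
  rintro ⟨K, hK⟩
  have hK' : ∀ n, x n ≤ K := fun n => hK ⟨n, rfl⟩
  obtain ⟨i0, hi0⟩ := hp
  have hKpos : 0 < K := (h.pos hB 0).trans_le (hK' 0)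
  have hβ0 : 0 ≤ β := (hB 0).trans (hβ 0)
  set c := 1 / ((β + 1) * K) with hc
  have hcpos : 0 < c := by positivity
  have hrec : ∀ i, x (s + 4 * (i + 1) + 2) =
      B (s + 2 + 4 * i) * x (s + 4 * i + 1 + 2) + x (s + 4 * i + 2) := by
    intro i
    have h1 := h.step (s + 4 * (i + 1))
    rw [hz, zero_mul, zero_add] at h1
    rw [h1, show s + 4 * (i + 1) = s + 4 * i + 2 + 2 by ring, h.inv,
      show s + 4 * i + 2 = s + 2 + 4 * i by ring, show s + 4 * i + 1 + 2 = s + 2 + 4 * i + 1 by ring]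
  apply incr (a := fun i => x (s + 4 * i + 2)) hk (mul_pos hi0 hcpos) i0
  · exact fun i => (h.pos hB _).le
  · intro i
    rw [hrec]
    have := mul_nonneg (hB (s + 2 + 4 * i)) (h.pos hB (s + 4 * i + 1 + 2)).le
    linarith
  · intro n
    rw [hrec]
    have e1 : B (s + 2 + 4 * (i0 + k * n)) = B (s + 2 + 4 * i0) := by
      rw [show s + 2 + 4 * (i0 + k * n) = s + 2 + 4 * i0 + k * (4 * n) by ring]
      exact per_mul hper _ _
    rw [e1, add_comm]
    have e2 := low hB h hβ hK' (s + 4 * (i0 + k * n) + 1)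
    have := mul_le_mul_of_nonneg_left e2 hi0.le
    linarith
  · exact fun i => hK' _

theorem unb_C (hB : ∀ n, 0 ≤ B n) (hk : 0 < k) (hper : ∀ n, B (n + k) = B n) {β : ℝ}
    (hβ : ∀ n, B n ≤ β) {m j : ℕ} (hm : 0 < B m) (hj : 0 < j)
    (ht : ((J B)^[j] (m, 1, 1)).1 ≡ m [MOD k]) (hv : 1 ≤ ((J B)^[j] (m, 1, 1)).2.2)
    (h : IsSol B x) : ¬ BddAbove (Set.range x) := by
  rintro ⟨K, hK⟩
  have hK' : ∀ n, x n ≤ K := fun n => hK ⟨n, rfl⟩
  have hKpos : 0 < K := (h.pos hB 0).trans_le (hK' 0)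
  have hβ0 : 0 ≤ β := (hB 0).trans (hβ 0)
  set c := 1 / ((β + 1) * K) with hc
  have hcpos : 0 < c := by positivity
  obtain ⟨i, rfl⟩ := Nat.exists_eq_succ_of_ne_zero hj.ne'
  set p : ℝ := 1 / (B (m + 2) + 1 / B m) with hp
  set p' : ℝ := 1 / (B (m + 2) + 1 / (B m + c / K)) with hp'
  have b2 := hB (m + 2)
  have hpp : p < p' := by
    rw [hp, hp']
    apply one_div_lt_one_div_of_lt (by positivity)
    have : 1 / (B m + c / K) < 1 / B m :=
      one_div_lt_one_div_of_lt hm (by linarith [div_pos hcpos hKpos])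
    linarith
  have hppos : 0 < p := by positivity
  have hJ1 : J B (m, 1, 1) = (m + 3, 1, p) := by
    rw [J_A (s := (m, 1, 1)) hm]
    simp only [one_mul]
    refine Prod.ext rfl (Prod.ext rfl ?_)
    change B m / (1 + B m * B (m + 2)) = p
    rw [hp]
    field_simp
    ring
  rw [Nat.succ_eq_add_one, Function.iterate_succ_apply, hJ1] at ht hv
  set V := ((J B)^[i] (m + 3, 1, p')).2.2 with hV
  have hV1 : 1 < V := by
    refine hv.trans_lt ?_
    exact it_strict hB (s := (m + 3, 1, p)) (s' := (m + 3, 1, p')) ⟨one_pos, hppos⟩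
      ⟨rfl, le_rfl, hpp.le⟩ hpp i
  -- the time
  have htime : ∃ D, ((J B)^[i] (m + 3, 1, p)).1 = m + k * D := by
    have hle : m ≤ ((J B)^[i] (m + 3, 1, p)).1 := by
      have : ∀ i, m + 3 ≤ ((J B)^[i] (m + 3, 1, p)).1 := by
        intro i
        induction i with
        | zero => exact le_rfl
        | succ i ih =>
          rw [Function.iterate_succ_apply']
          by_cases h0 : 0 < B ((J B)^[i] (m + 3, 1, p)).1
          · rw [J_A h0]
            change m + 3 ≤ ((J B)^[i] (m + 3, 1, p)).1 + 3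
            omega
          · rw [J_R h0]
            change m + 3 ≤ ((J B)^[i] (m + 3, 1, p)).1 + 4
            omega
      have := this i
      omega
    obtain ⟨D, hD⟩ := (Nat.modEq_iff_dvd' hle).mp ht.symm
    exact ⟨D, by omega⟩
  obtain ⟨D, hD⟩ := htime
  have key : ∀ r : ℕ, V ^ r * x (m + k * 2 + 1) ≤ x (m + k * (2 + D * r) + 1) := by
    intro r
    induction r with
    | zero => simp
    | succ r ih =>
      set n := m + k * (2 + D * r) with hn
      have hBn : B n = B m := per_mul hper _ _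
      have hBn2 : B (n + 2) = B (m + 2) := by
        rw [hn, add_right_comm]
        exact per_mul hper _ _
      have hx1 := h.pos hB (n + 1)
      have h2n : 2 ≤ n := by
        have h1 : 1 * 2 ≤ k * (2 + D * r) := Nat.mul_le_mul hk (Nat.le_add_right 2 _)
        omega
      have hxn : c ≤ x n := by
        obtain ⟨n', hn'⟩ := Nat.exists_eq_add_of_le' h2n
        rw [hn']
        exact low hB h hβ hK' n'
      have e2 : x (n + 2) ≤ 1 / (x (n + 1) * (B m + c / K)) := by
        rw [h.step n, hBn]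
        apply one_div_le_one_div_of_le (by positivity)
        have : x (n + 1) * (c / K) ≤ c := by
          rw [mul_div_assoc', div_le_iff₀ hKpos, mul_comm]
          exact mul_le_mul_of_nonneg_left (hK' _) hcpos.le
        nlinarith
      have hS := J_le_st hB h n
      rw [J_A (s := st x n) (by change 0 < B n; rw [hBn]; exact hm)] at hS
      have hm3 : x (n + 1) ≤ 1 / x (n + 3) := hS.m
      have p3 := h.pos hB (n + 3)
      have p4 := h.pos hB (n + 4)
      have hl3 : x (n + 1) * p' ≤ x (n + 4) := by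
        have i4 : 1 / x (n + 4) = B (n + 2) * x (n + 3) + x (n + 2) := h.inv (n + 2)
        have e1 : x (n + 3) ≤ 1 / x (n + 1) := by
          rw [le_div_iff₀ hx1, mul_comm]
          rw [le_div_iff₀ p3] at hm3
          linarith
        have e3 : 1 / x (n + 4) ≤ B (m + 2) * (1 / x (n + 1)) +
            1 / (x (n + 1) * (B m + c / K)) := by
          rw [i4, hBn2]
          exact add_le_add (mul_le_mul_of_nonneg_left e1 b2) e2
        have e4 : B (m + 2) * (1 / x (n + 1)) + 1 / (x (n + 1) * (B m + c / K)) =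
            1 / (x (n + 1) * p') := by
          rw [hp']
          field_simp
        rw [e4] at e3
        exact (one_div_le_one_div p4 (by positivity)).mp e3
      have hle : SLe (sc (x (n + 1)) (n + 3, 1, p')) (st x (n + 3)) :=
        ⟨rfl, by simpa [sc, st] using hm3, hl3⟩
      have hpos' : Pos (n + 3, (1 : ℝ), p') := ⟨one_pos, hppos.trans hpp⟩
      have h5 := it_le_st hB h (s := sc (x (n + 1)) (n + 3, 1, p'))
        ⟨mul_pos hx1 one_pos, mul_pos hx1 (hppos.trans hpp)⟩ hle i
      rw [it_sc hB hpos' hx1] at h5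
      have h6 : ((J B)^[i] (n + 3, 1, p')).2.2 = V := by
        rw [hV, it_modEq hper (t := n + 3) (t' := m + 3)]
        rw [hn]
        apply Nat.ModEq.add_right
        unfold Nat.ModEq
        rw [Nat.add_mul_mod_self_left]
      have h7 : ((J B)^[i] (n + 3, 1, p')).1 = m + k * (2 + D * (r + 1)) := by
        have e1 := it_time (B := B) (s := (n + 3, 1, p')) (s' := (n + 3, 1, p)) rfl i
        have e2 := it_sh (B := B) (k := k * (2 + D * r)) (fun n => per_mul hper n _) (m + 3, 1, p) i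
        have e3 : sh (k * (2 + D * r)) (m + 3, 1, p) = (n + 3, 1, p) := by
          simp only [sh, hn]
          rw [add_right_comm]
        rw [e3] at e2
        rw [e1, e2]
        change ((J B)^[i] (m + 3, 1, p)).1 + k * (2 + D * r) = _
        rw [hD]
        ring
      have h8 := h5.l
      change x (n + 1) * ((J B)^[i] (n + 3, 1, p')).2.2 ≤
        x (((J B)^[i] (n + 3, 1, p')).1 + 1) at h8
      rw [h6, h7] at h8
      calc V ^ (r + 1) * x (m + k * 2 + 1) = V * (V ^ r * x (m + k * 2 + 1)) := by ring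
        _ ≤ V * x (n + 1) := mul_le_mul_of_nonneg_left ih (by linarith)
        _ ≤ _ := by linarith
  have hx0 := h.pos hB (m + k * 2 + 1)
  obtain ⟨r, hr⟩ := pow_unbounded_of_one_lt (K / x (m + k * 2 + 1)) hV1
  rw [div_lt_iff₀ hx0] at hr
  linarith [key r, hK' (m + k * (2 + D * r) + 1)]

end

end V11196.RR
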