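import Pool.Agent.V11196.RR.Bwd

/-! Boundedness in the second alternative and the final dichotomy. -/

namespace V11196.RR

noncomputable section

variable {B x : ℕ → ℝ} {k : ℕ}

lemma sc_sc (c d : ℝ) (s : ℕ × ℝ × ℝ) : sc c (sc d s) = sc (c * d) s := by
  simp only [sc, mul_assoc]

lemma sc_mono {c : ℝ} (hc : 0 ≤ c) {s s' : ℕ × ℝ × ℝ} (h : SLe s s') : SLe (sc c s) (sc c s') :=
  ⟨h.t, mul_le_mul_of_nonneg_left h.m hc, mul_le_mul_of_nonneg_left h.l hc⟩

lemma sc_pos {c : ℝ} (hc : 0 < c) {s : ℕ × ℝ × ℝ} (h : Pos s) : Pos (sc c s) :=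
  ⟨mul_pos hc h.1, mul_pos hc h.2⟩

lemma chain (hB : ∀ n, 0 ≤ B n) {b β D ε K : ℝ} {N0 : ℕ} (hb : ∀ n, 0 < B n → b ≤ B n)
    (hb0 : 0 < b) (hβ : ∀ n, B n ≤ β) (hD : 1 ≤ D) (hε0 : 0 < ε) (hε1 : ε ≤ 1) (h : IsSol B x)
    (hdich : ∀ n, N0 ≤ n → x n * x (n + 1) ≤ D ∨ x (n + 1) ≤ D * x n) (hK0 : 0 < K)
    (hK1 : ∀ L, K ≤ L → 2 * D * β ≤ ε * L ^ 2) (hK2 : ∀ L, K ≤ L → 4 * D ^ 4 < L ^ 2)
    (hK3 : ∀ L, K ≤ L → 4 * D ^ 3 < ε * b * L ^ 2) (N : ℕ) :
    ∀ n, N0 + 4 * N ≤ n → x n * x (n + 1) ≤ D → K * (2 * D ^ 2) ^ N ≤ x (n + 1) →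
      ∃ n', n' ≤ n ∧ n ≤ n' + 4 * N ∧
        SLe (st x n) (sc ((1 + ε) ^ N) ((J B)^[N] (st x n'))) := by
  induction N with
  | zero =>
    intro n _ _ _
    refine ⟨n, le_rfl, by omega, ?_⟩
    simp only [pow_zero, Function.iterate_zero, id]
    exact ⟨rfl, by simp [sc], by simp [sc]⟩
  | succ N ih =>
    intro n hn hprim hL
    obtain ⟨q, rfl⟩ : ∃ q, n = q + 4 := ⟨n - 4, by omega⟩
    have hD2 : 1 ≤ 2 * D ^ 2 := by
      have : 1 ≤ D ^ 2 := one_le_pow₀ hD
      linarith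
    have hLK : K ≤ x (q + 5) := by
      have h1 : (1 : ℝ) ≤ (2 * D ^ 2) ^ (N + 1) := one_le_pow₀ hD2
      have h2 : K * 1 ≤ K * (2 * D ^ 2) ^ (N + 1) := mul_le_mul_of_nonneg_left h1 hK0.le
      have h3 : K * (2 * D ^ 2) ^ (N + 1) ≤ x (q + 5) := hL
      linarith
    obtain ⟨n1, hn1, hprim1, hx1, hle1⟩ := pred hB hb hb0 hβ hD hε0 hε1 h
      (hdich q (by omega)) (hdich (q + 1) (by omega)) hprim (hK1 _ hLK) (hK2 _ hLK) (hK3 _ hLK)
    have hn1' : q ≤ n1 ∧ n1 ≤ q + 1 := by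
      rcases hn1 with rfl | rfl <;> omega
    have h4 : K * (2 * D ^ 2) ^ N ≤ x (n1 + 1) := by
      have h5 : K * (2 * D ^ 2) ^ N * (2 * D ^ 2) ≤ x (n1 + 1) * (2 * D ^ 2) := by
        calc K * (2 * D ^ 2) ^ N * (2 * D ^ 2) = K * (2 * D ^ 2) ^ (N + 1) := by ring
          _ ≤ x (q + 5) := hL
          _ ≤ 2 * D ^ 2 * x (n1 + 1) := hx1
          _ = x (n1 + 1) * (2 * D ^ 2) := by ring
      exact le_of_mul_le_mul_right h5 (by linarith)
    obtain ⟨n', hn'1, hn'2, hle2⟩ := ih n1 (by omega) hprim1 h4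
    refine ⟨n', by omega, by omega, ?_⟩
    have hpos' := it_pos hB (st_pos hB h n') N
    have h1ε : 0 < 1 + ε := by linarith
    have h6 := J_mono hB (st_pos hB h n1) hle2
    rw [J_sc hB hpos' (pow_pos h1ε N)] at h6
    have h7 := hle1.trans (sc_mono h1ε.le h6)
    rw [sc_sc] at h7
    rw [Function.iterate_succ_apply', pow_succ']
    exact h7

lemma record (hx : ¬ BddAbove (Set.range x)) (R : ℝ) (N1 : ℕ) :
    ∃ n, N1 ≤ n ∧ R ≤ x (n + 1) ∧ ∀ j ≤ n + 1, x j ≤ x (n + 1) := by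
  classical
  obtain ⟨C, hC⟩ : BddAbove (x '' {i | i < N1 + 1}) := ((Set.finite_lt_nat _).image x).bddAbove
  have h1 : ∃ i, max R C < x i := by
    by_contra hcon
    push Not at hcon
    exact hx ⟨max R C, by rintro _ ⟨i, rfl⟩; exact hcon i⟩
  set i := Nat.find h1 with hi
  have h2 : max R C < x i := Nat.find_spec h1
  have h3 : ∀ j < i, x j ≤ max R C := fun j hj => not_lt.mp (Nat.find_min h1 hj)
  have h4 : N1 + 1 ≤ i := by
    by_contra hcon
    have : x i ≤ C := hC ⟨i, by simp only [Set.mem_ofPred_eq]; omega, rfl⟩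
    have := le_max_right R C
    linarith
  refine ⟨i - 1, by omega, ?_, ?_⟩
  · rw [show i - 1 + 1 = i by omega]
    exact (le_max_left _ _).trans h2.le
  · rw [show i - 1 + 1 = i by omega]
    intro j hj
    rcases hj.lt_or_eq with hj | rfl
    · exact (h3 j hj).trans h2.le
    · exact le_rfl

theorem bdd_II (hB : ∀ n, 0 ≤ B n) (hk : 0 < k) (hper : ∀ n, B (n + k) = B n)
    (hII : CondII B k) (h : IsSol B x) : BddAbove (Set.range x) := by
  by_contra hunb
  obtain ⟨β, hβ⟩ := per_bdd hk hper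
  obtain ⟨b, hb0, hb⟩ := per_low hk hper
  have hβ0 : 0 ≤ β := (hB 0).trans (hβ 0)
  obtain ⟨D, hD, hdich⟩ := dichotomy hB hk hper hII.1 hb hb0 hβ h
  have hDpos : 0 < D := by linarith
  obtain ⟨N, hN⟩ := decay hB hk hper hII (δ := 1 / (4 * D * (β + 1))) (by positivity)
  -- choose `ε`
  obtain ⟨ε, hε0, hε1, hε2⟩ : ∃ ε : ℝ, 0 < ε ∧ ε ≤ 1 ∧ (1 + ε) ^ N ≤ 2 := by
    have hc : Filter.Tendsto (fun ε : ℝ => (1 + ε) ^ N) (nhds 0) (nhds ((1 + 0) ^ N)) :=
      (Continuous.tendsto (by fun_prop) 0)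
    rw [add_zero, one_pow] at hc
    have h2 : ∀ᶠ ε : ℝ in nhds 0, (1 + ε) ^ N < 2 := hc.eventually (gt_mem_nhds (by norm_num))
    obtain ⟨r, hr, hr'⟩ := Metric.eventually_nhds_iff.mp h2
    refine ⟨min (r / 2) 1, lt_min (by linarith) one_pos, min_le_right _ _, ?_⟩
    apply le_of_lt
    apply hr'
    rw [Real.dist_eq, sub_zero, abs_of_pos (lt_min (by linarith) one_pos)]
    exact lt_of_le_of_lt (min_le_left _ _) (by linarith)
  -- choose `K`
  set K := 1 + 2 * D * β / ε + 4 * D ^ 3 / (ε * b) + 4 * D ^ 4 with hK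
  have t1 : 0 ≤ 2 * D * β / ε := by positivity
  have t2 : 0 < 4 * D ^ 3 / (ε * b) := by positivity
  have t3 : 0 < 4 * D ^ 4 := by positivity
  have hK0 : 0 < K := by rw [hK]; linarith
  have hsq : ∀ L, K ≤ L → L ≤ L ^ 2 := by
    intro L hL
    have : 1 ≤ L := by rw [hK] at hL; linarith
    nlinarith
  have hK1 : ∀ L, K ≤ L → 2 * D * β ≤ ε * L ^ 2 := by
    intro L hL
    have h1 := hsq L hL
    have h2 : 2 * D * β / ε ≤ L ^ 2 := by rw [hK] at hL; linarith
    rw [div_le_iff₀ hε0] at h2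
    linarith
  have hK2 : ∀ L, K ≤ L → 4 * D ^ 4 < L ^ 2 := by
    intro L hL
    have h1 := hsq L hL
    rw [hK] at hL
    linarith
  have hK3 : ∀ L, K ≤ L → 4 * D ^ 3 < ε * b * L ^ 2 := by
    intro L hL
    have h1 := hsq L hL
    have h2 : 4 * D ^ 3 / (ε * b) < L ^ 2 := by rw [hK] at hL; linarith
    rw [div_lt_iff₀ (by positivity)] at h2
    linarith
  -- record
  have hpw : 0 < (2 * D ^ 2) ^ N := by positivity
  obtain ⟨m, hm1, hm2, hm3⟩ := record hunb (D * (K * (2 * D ^ 2) ^ N) + (D / b + 1))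
    (4 * k + 4 * N + 4)
  set R := x (m + 1) with hR
  have hRpos : 0 < R := h.pos hB _
  have hDb : 0 < D / b := by positivity
  have hR1 : D * (K * (2 * D ^ 2) ^ N) ≤ R := by linarith
  have hR2 : D / b < R := by nlinarith [mul_pos hDpos (mul_pos hK0 hpw)]
  have hR3 : 1 ≤ R := by nlinarith [mul_pos hDpos (mul_pos hK0 hpw)]
  -- a primary time
  obtain ⟨n0, hn0, hn0', hprim, hxn⟩ : ∃ n0, n0 ≤ m ∧ m ≤ n0 + 1 ∧ x n0 * x (n0 + 1) ≤ D ∧
      R ≤ D * x (n0 + 1) := by
    rcases hdich m (by omega) with hd | hd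
    · exact ⟨m, le_rfl, by omega, hd, by nlinarith⟩
    · obtain ⟨m', rfl⟩ : ∃ m', m = m' + 1 := ⟨m - 1, by omega⟩
      refine ⟨m', by omega, le_rfl, ?_, hd⟩
      have p1 := h.pos hB (m' + 1)
      have hz : B m' = 0 := by
        apply zero_of_prod hB hb hb0 h m'
        have h1 : R * R ≤ D * x (m' + 1) * R := mul_le_mul_of_nonneg_right hd hRpos.le
        have h2 : D / b * 1 < R * R := by
          apply mul_lt_mul' hR2.le _ (by norm_num) hRpos |>.trans_le' le_rfl
          by_contra hcon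
          push Not at hcon
          nlinarith [mul_pos hDpos (mul_pos hK0 hpw)]
        have h3 : D * (1 / b) < D * (x (m' + 1) * x (m' + 2)) := by
          calc D * (1 / b) = D / b * 1 := by ring
            _ < R * R := h2
            _ ≤ D * x (m' + 1) * R := h1
            _ = D * (x (m' + 1) * x (m' + 2)) := by rw [hR]; ring
        exact lt_of_mul_lt_mul_left h3 hDpos.le
      have i2 := h.inv m'
      rw [hz, zero_mul, zero_add] at i2
      have h4 : x (m' + 1) ≤ R := hm3 _ (by omega)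
      have h5 : x m' * x (m' + 1) ≤ 1 := by
        rw [← i2]
        change 1 / R * x (m' + 1) ≤ 1
        rw [one_div_mul_eq_div, div_le_one hRpos]
        exact h4
      linarith
  have hL0 : K * (2 * D ^ 2) ^ N ≤ x (n0 + 1) := by
    have : D * (K * (2 * D ^ 2) ^ N) ≤ D * x (n0 + 1) := hR1.trans hxn
    exact le_of_mul_le_mul_left this hDpos
  obtain ⟨n', hn'1, hn'2, hle⟩ := chain hB hb hb0 hβ hD hε0 hε1 h hdich hK0 hK1 hK2 hK3 N n0
    (by omega) hprim hL0
  -- bound of the starting state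
  obtain ⟨n'', hn''⟩ : ∃ n'', n' = n'' + 2 := ⟨n' - 2, by omega⟩
  have hstart : SLe (st x n') (sc ((β + 1) * R) (n', 1, 1)) := by
    refine ⟨rfl, ?_, ?_⟩
    · change 1 / x n' ≤ (β + 1) * R * 1
      rw [hn'', h.inv n'']
      have h1 : x (n'' + 1) ≤ R := hm3 _ (by omega)
      have h2 : x n'' ≤ R := hm3 _ (by omega)
      have h3 : B n'' * x (n'' + 1) ≤ β * R :=
        mul_le_mul (hβ _) h1 (h.pos hB _).le hβ0
      linarith
    · change x (n' + 1) ≤ (β + 1) * R * 1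
      have h1 : x (n' + 1) ≤ R := hm3 _ (by omega)
      nlinarith
  have hp1 : Pos (n', (1 : ℝ), (1 : ℝ)) := ⟨one_pos, one_pos⟩
  have h8 := it_mono hB (st_pos hB h n') hstart N
  rw [it_sc hB hp1 (by positivity)] at h8
  have h9 := hle.trans (sc_mono (pow_nonneg (by linarith) N) h8)
  have h10 : x (n0 + 1) ≤ (1 + ε) ^ N * ((β + 1) * R * ((J B)^[N] (n', 1, 1)).2.2) := h9.l
  have h11 := hN n'
  have h12 : 0 < ((J B)^[N] (n', 1, 1)).2.2 := (it_pos hB hp1 N).2
  have h13 : (β + 1) * R * ((J B)^[N] (n', 1, 1)).2.2 ≤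
      (β + 1) * R * (1 / (4 * D * (β + 1))) := mul_le_mul_of_nonneg_left h11.le (by positivity)
  have h14 : (β + 1) * R * (1 / (4 * D * (β + 1))) = R / (4 * D) := by
    field_simp
  rw [h14] at h13
  have h15 : x (n0 + 1) ≤ 2 * (R / (4 * D)) := by
    refine h10.trans ?_
    exact mul_le_mul hε2 h13 (by positivity) (by norm_num)
  have h16 : D * x (n0 + 1) ≤ R / 2 := by
    calc D * x (n0 + 1) ≤ D * (2 * (R / (4 * D))) := mul_le_mul_of_nonneg_left h15 hDpos.le
      _ = R / 2 := by field_simp; norm_num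
  linarith

theorem exists_sol (B : ℕ → ℝ) : ∃ x, IsSol B x := by
  let w : ℕ → ℝ × ℝ := fun n => Nat.rec (1, 1) (fun n p => (p.2, 1 / (B n * p.2 + p.1))) n
  refine ⟨fun n => (w n).1, one_pos, one_pos, fun n => rfl⟩

theorem main (hk : 2 ≤ k) (hB : ∀ n, 0 ≤ B n) (hper : ∀ n, B (n + k) = B n)
    (hmin : ∀ p, 0 < p → p < k → ¬ ∀ n, B (n + p) = B n) :
    ((CondI B ∨ CondII B k) → ∀ x, IsSol B x → BddAbove (Set.range x)) ∧
      (¬ (CondI B ∨ CondII B k) → ∀ x, IsSol B x → ¬ BddAbove (Set.range x)) := by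
  have hk0 : 0 < k := by omega
  obtain ⟨β, hβ⟩ := per_bdd hk0 hper
  refine ⟨?_, ?_⟩
  · rintro (hI | hII) x h
    · exact bdd_I hB hk0 hper hβ hI h
    · exact bdd_II hB hk0 hper hII h
  · intro hno x h
    push Not at hno
    obtain ⟨hnI, hnII⟩ := hno
    by_cases hz : ∃ m, ∀ i, B (m + 4 * i) = 0
    · obtain ⟨m, hz⟩ := hz
      by_cases h2 : ∃ i, 0 < B (m + 2 + 4 * i)
      · exact unb_Z hB hk0 hper hβ hz h2 h
      · push Not at h2
        have h2' : ∀ i, B (m + 2 + 4 * i) = 0 := fun i => le_antisymm (h2 i) (hB _)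
        have heven : ∀ i, B (m + 2 * i) = 0 := by
          intro i
          rcases Nat.even_or_odd' i with ⟨c, rfl | rfl⟩
          · rw [show m + 2 * (2 * c) = m + 4 * c by ring]
            exact hz c
          · rw [show m + 2 * (2 * c + 1) = m + 2 + 4 * c by ring]
            exact h2' c
        by_cases h3 : ∃ i, 0 < B (m + 3 + 4 * i)
        · by_cases h1 : ∃ i, 0 < B (m + 1 + 4 * i)
          · exact absurd ⟨m, heven, h1, h3⟩ hnI
          · push Not at h1
            have h1' : ∀ i, B (m + 1 + 4 * i) = 0 := fun i => le_antisymm (h1 i) (hB _)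
            apply unb_Z hB hk0 hper hβ h1' _ h
            obtain ⟨i, hi⟩ := h3
            exact ⟨i, by rw [show m + 1 + 2 + 4 * i = m + 3 + 4 * i by ring]; exact hi⟩
        · push Not at h3
          have h3' : ∀ i, B (m + 3 + 4 * i) = 0 := fun i => le_antisymm (h3 i) (hB _)
          by_cases h1 : ∃ i, 0 < B (m + 1 + 4 * i)
          · apply unb_Z hB hk0 hper hβ h3' _ h
            obtain ⟨i, hi⟩ := h1
            refine ⟨i + (k - 1), ?_⟩
            have e : m + 3 + 2 + 4 * (i + (k - 1)) = m + 1 + 4 * i + k * 4 := by omega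
            rw [e, per_mul hper]
            exact hi
          · exfalso
            push Not at h1
            have h1' : ∀ i, B (m + 1 + 4 * i) = 0 := fun i => le_antisymm (h1 i) (hB _)
            have hall : ∀ n, B n = 0 := by
              intro n
              have e1 : B n = B (n + k * m) := (per_mul hper n m).symm
              rw [e1]
              have hle : m ≤ n + k * m := by nlinarith
              obtain ⟨q, r, hr, hqr⟩ : ∃ q r, r < 4 ∧ n + k * m = m + 4 * q + r :=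
                ⟨(n + k * m - m) / 4, (n + k * m - m) % 4, Nat.mod_lt _ (by norm_num), by omega⟩
              rw [hqr]
              interval_cases r
              · exact hz q
              · rw [show m + 4 * q + 1 = m + 1 + 4 * q by ring]
                exact h1' q
              · rw [show m + 4 * q + 2 = m + 2 + 4 * q by ring]
                exact h2' q
              · rw [show m + 4 * q + 3 = m + 3 + 4 * q by ring]
                exact h3' q
            exact hmin 1 one_pos (by omega) (fun n => by rw [hall, hall])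
    · have hpos : ∀ m, ∃ i, 0 < B (m + 4 * i) := by
        push Not at hz
        intro m
        obtain ⟨i, hi⟩ := hz m
        exact ⟨i, lt_of_le_of_ne (hB _) (Ne.symm hi)⟩
      have : ∃ m j, 0 < B m ∧ 0 < j ∧ ((J B)^[j] (m, 1, 1)).1 ≡ m [MOD k] ∧
          1 ≤ ((J B)^[j] (m, 1, 1)).2.2 := by
        by_contra hcon
        push Not at hcon
        exact hnII ⟨hpos, hcon⟩
      obtain ⟨m, j, hm, hj, ht, hv⟩ := this
      exact unb_C hB hk0 hper hβ hm hj ht hv h

end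

end V11196.RR
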